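import Mathlib

/-!
# A biorthogonal sequence whose two parts span dense subspaces of a space and of its dual

The recursion treats in turn the vectors `a m` and the functionals `b m`; pairs may degenerate to
`(0, 0)` and are removed at the end.
-/

set_option autoImplicit false

open Filter Topology

namespace Pool.Agent.Helper65.Strong

universe u v

section Recursion

variable (𝕜 : Type u) [RCLike 𝕜] {E : Type v} [NormedAddCommGroup E] [NormedSpace 𝕜 E]

theorem exists_hd (z : E) : ∃ f : StrongDual 𝕜 E, (z ≠ 0 → f z = 1) ∧ (z = 0 → f = 0) := by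
  by_cases h : z = 0
  · exact ⟨0, fun h' => absurd h h', fun _ => rfl⟩
  · obtain ⟨f, hf⟩ := SeparatingDual.exists_eq_one (R := 𝕜) h
    exact ⟨f, fun _ => hf, fun h' => absurd h' h⟩

/-- a functional with value one at `z` -/
noncomputable def hd (z : E) : StrongDual 𝕜 E := Classical.choose (exists_hd 𝕜 z)

theorem hd_apply {z : E} (hz : z ≠ 0) : hd 𝕜 z z = 1 := (Classical.choose_spec (exists_hd 𝕜 z)).1 hz

theorem hd_zero : hd 𝕜 (0 : E) = 0 := (Classical.choose_spec (exists_hd 𝕜 (0 : E))).2 rfl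

theorem exists_hv (β : StrongDual 𝕜 E) : ∃ z : E, (β ≠ 0 → β z = 1) ∧ (β = 0 → z = 0) := by
  by_cases h : β = 0
  · exact ⟨0, fun h' => absurd h h', fun _ => rfl⟩
  · obtain ⟨z, hz⟩ : ∃ z, β z ≠ 0 := by
      by_contra hcon
      push Not at hcon
      exact h (ContinuousLinearMap.ext hcon)
    refine ⟨(β z)⁻¹ • z, fun _ => ?_, fun h' => absurd h' h⟩
    rw [map_smul, smul_eq_mul, inv_mul_cancel₀ hz]

/-- a vector at which `β` is one -/
noncomputable def hv (β : StrongDual 𝕜 E) : E := Classical.choose (exists_hv 𝕜 β)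

theorem hv_apply {β : StrongDual 𝕜 E} (hβ : β ≠ 0) : β (hv 𝕜 β) = 1 :=
  (Classical.choose_spec (exists_hv 𝕜 β)).1 hβ

theorem hv_zero : hv 𝕜 (0 : StrongDual 𝕜 E) = 0 := (Classical.choose_spec (exists_hv 𝕜 _)).2 rfl

variable (a : ℕ → E) (b : ℕ → StrongDual 𝕜 E)

/-- the new pair, given the projection onto the old ones -/
noncomputable def newPair (P : E →L[𝕜] E) (n : ℕ) : E × StrongDual 𝕜 E :=
  if n % 2 = 0 then
    (a (n / 2) - P (a (n / 2)), (hd 𝕜 (a (n / 2) - P (a (n / 2)))).comp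
      (ContinuousLinearMap.id 𝕜 E - P))
  else
    ((ContinuousLinearMap.id 𝕜 E - P)
      (hv 𝕜 ((b (n / 2)).comp (ContinuousLinearMap.id 𝕜 E - P))),
      (b (n / 2)).comp (ContinuousLinearMap.id 𝕜 E - P))

/-- the projections -/
noncomputable def Pr : ℕ → (E →L[𝕜] E)
  | 0 => 0
  | n + 1 => Pr n + ((newPair 𝕜 a b (Pr n) n).2).smulRight (newPair 𝕜 a b (Pr n) n).1

/-- the vectors -/
noncomputable def ve (n : ℕ) : E := (newPair 𝕜 a b (Pr 𝕜 a b n) n).1

/-- the functionals -/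
noncomputable def fu (n : ℕ) : StrongDual 𝕜 E := (newPair 𝕜 a b (Pr 𝕜 a b n) n).2

theorem Pr_succ (n : ℕ) (x : E) :
    Pr 𝕜 a b (n + 1) x = Pr 𝕜 a b n x + fu 𝕜 a b n x • ve 𝕜 a b n := rfl

/-- what one step gives, if `P` is idempotent -/
theorem newPair_spec (P : E →L[𝕜] E) (hP : ∀ x, P (P x) = P x) (n : ℕ) :
    P (newPair 𝕜 a b P n).1 = 0 ∧ (∀ x, (newPair 𝕜 a b P n).2 (P x) = 0) ∧
    ((newPair 𝕜 a b P n).2 (newPair 𝕜 a b P n).1 = 1 ∨
      ((newPair 𝕜 a b P n).1 = 0 ∧ (newPair 𝕜 a b P n).2 = 0)) := by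
  have hz : ∀ z : E, P (z - P z) = 0 := fun z => by rw [map_sub, hP, sub_self]
  unfold newPair
  by_cases hn : n % 2 = 0
  · simp only [hn, if_true]
    refine ⟨hz _, fun x => ?_, ?_⟩
    · simp [hP]
    · by_cases h : a (n / 2) - P (a (n / 2)) = 0
      · right
        rw [h, hd_zero]
        exact ⟨rfl, by ext x; simp⟩
      · left
        simp only [ContinuousLinearMap.comp_apply, _root_.sub_apply, ContinuousLinearMap.id_apply]
        rw [hz, sub_zero]
        exact hd_apply 𝕜 h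
  · simp only [hn, if_false]
    refine ⟨?_, fun x => ?_, ?_⟩
    · simp only [_root_.sub_apply, ContinuousLinearMap.id_apply]
      exact hz _
    · simp [hP]
    · by_cases h : (b (n / 2)).comp (ContinuousLinearMap.id 𝕜 E - P) = 0
      · right
        rw [h, hv_zero, map_zero]
        exact ⟨rfl, rfl⟩
      · left
        set w := hv 𝕜 ((b (n / 2)).comp (ContinuousLinearMap.id 𝕜 E - P)) with hw
        have h1 := hv_apply 𝕜 h
        rw [← hw] at h1
        simp only [ContinuousLinearMap.comp_apply, _root_.sub_apply,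
          ContinuousLinearMap.id_apply] at h1 ⊢
        rw [hz, sub_zero]
        exact h1

theorem Pr_idem (n : ℕ) (x : E) : Pr 𝕜 a b n (Pr 𝕜 a b n x) = Pr 𝕜 a b n x := by
  induction n generalizing x with
  | zero => simp [Pr]
  | succ n ih =>
    obtain ⟨h1, h2, h3⟩ := newPair_spec 𝕜 a b (Pr 𝕜 a b n) ih n
    have h4 : fu 𝕜 a b n (ve 𝕜 a b n) • ve 𝕜 a b n = ve 𝕜 a b n := by
      rcases h3 with h | ⟨h, -⟩
      · unfold fu ve; rw [h, one_smul]
      · unfold ve; rw [h, smul_zero]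
    have h1' : Pr 𝕜 a b n (ve 𝕜 a b n) = 0 := h1
    have h2' : ∀ x, fu 𝕜 a b n (Pr 𝕜 a b n x) = 0 := h2
    rw [Pr_succ, Pr_succ, map_add, map_add, ih, map_smul, h1', h2', map_smul, smul_zero,
      add_zero, zero_add, smul_eq_mul, mul_smul, h4]

theorem Pr_ve (n : ℕ) : Pr 𝕜 a b n (ve 𝕜 a b n) = 0 :=
  (newPair_spec 𝕜 a b (Pr 𝕜 a b n) (Pr_idem 𝕜 a b n) n).1

theorem fu_Pr (n : ℕ) (x : E) : fu 𝕜 a b n (Pr 𝕜 a b n x) = 0 :=
  (newPair_spec 𝕜 a b (Pr 𝕜 a b n) (Pr_idem 𝕜 a b n) n).2.1 x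

theorem fu_ve (n : ℕ) : fu 𝕜 a b n (ve 𝕜 a b n) = 1 ∨ (ve 𝕜 a b n = 0 ∧ fu 𝕜 a b n = 0) :=
  (newPair_spec 𝕜 a b (Pr 𝕜 a b n) (Pr_idem 𝕜 a b n) n).2.2

/-- `fu n` does not change after subtracting the old part, `ve n` neither -/
theorem ve_sub (n : ℕ) : ve 𝕜 a b n - Pr 𝕜 a b n (ve 𝕜 a b n) = ve 𝕜 a b n := by
  rw [Pr_ve, sub_zero]

theorem later (n k : ℕ) : Pr 𝕜 a b (n + 1 + k) (ve 𝕜 a b n) = ve 𝕜 a b n ∧
    ∀ x, fu 𝕜 a b n (Pr 𝕜 a b (n + 1 + k) x) = fu 𝕜 a b n x := by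
  induction k with
  | zero =>
    constructor
    · rw [add_zero, Pr_succ, Pr_ve, zero_add]
      rcases fu_ve 𝕜 a b n with h | ⟨h, -⟩
      · rw [h, one_smul]
      · rw [h, smul_zero]
    · intro x
      rw [add_zero, Pr_succ, map_add, fu_Pr, zero_add, map_smul, smul_eq_mul]
      rcases fu_ve 𝕜 a b n with h | ⟨-, h⟩
      · rw [h, mul_one]
      · simp [h]
  | succ k ih =>
    obtain ⟨ih1, ih2⟩ := ih
    have h1 : fu 𝕜 a b (n + 1 + k) (ve 𝕜 a b n) = 0 := by
      rw [← ih1, fu_Pr]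
    have h2 : fu 𝕜 a b n (ve 𝕜 a b (n + 1 + k)) = 0 := by
      rw [← ih2, Pr_ve, map_zero]
    constructor
    · rw [← add_assoc, Pr_succ, ih1, h1, zero_smul, add_zero]
    · intro x
      rw [← add_assoc, Pr_succ, map_add, ih2, map_smul, h2, smul_zero, add_zero]

theorem biorth {i j : ℕ} (h : i ≠ j) : fu 𝕜 a b i (ve 𝕜 a b j) = 0 := by
  rcases lt_or_gt_of_ne h with h | h
  · obtain ⟨k, rfl⟩ := Nat.exists_eq_add_of_lt h
    have h3 : i + k + 1 = i + 1 + k := by ring
    rw [h3, ← (later 𝕜 a b i k).2, Pr_ve, map_zero]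
  · obtain ⟨k, rfl⟩ := Nat.exists_eq_add_of_lt h
    have h3 : j + k + 1 = j + 1 + k := by ring
    rw [h3, ← (later 𝕜 a b j k).1, fu_Pr]

theorem Pr_mem (n : ℕ) (x : E) : Pr 𝕜 a b n x ∈ Submodule.span 𝕜 (Set.range (ve 𝕜 a b)) := by
  induction n with
  | zero => simp [Pr]
  | succ n ih =>
    rw [Pr_succ]
    exact Submodule.add_mem _ ih (Submodule.smul_mem _ _ (Submodule.subset_span ⟨n, rfl⟩))

theorem comp_Pr_mem (g : StrongDual 𝕜 E) (n : ℕ) :
    g.comp (Pr 𝕜 a b n) ∈ Submodule.span 𝕜 (Set.range (fu 𝕜 a b)) := by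
  induction n with
  | zero =>
    have : g.comp (Pr 𝕜 a b 0) = 0 := by ext x; simp [Pr]
    rw [this]; exact Submodule.zero_mem _
  | succ n ih =>
    have : g.comp (Pr 𝕜 a b (n + 1)) =
        g.comp (Pr 𝕜 a b n) + g (ve 𝕜 a b n) • fu 𝕜 a b n := by
      ext x
      rw [ContinuousLinearMap.comp_apply, Pr_succ]
      simp [mul_comm]
    rw [this]
    exact Submodule.add_mem _ ih (Submodule.smul_mem _ _ (Submodule.subset_span ⟨n, rfl⟩))

theorem a_mem (m : ℕ) : a m ∈ Submodule.span 𝕜 (Set.range (ve 𝕜 a b)) := by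
  have h : a m = ve 𝕜 a b (2 * m) + Pr 𝕜 a b (2 * m) (a m) := by
    have h1 : (2 * m) % 2 = 0 := by omega
    have h2 : (2 * m) / 2 = m := by omega
    unfold ve newPair
    simp only [h1, if_true, h2]
    abel
  rw [h]
  exact Submodule.add_mem _ (Submodule.subset_span ⟨_, rfl⟩) (Pr_mem 𝕜 a b _ _)

theorem b_mem (m : ℕ) : b m ∈ Submodule.span 𝕜 (Set.range (fu 𝕜 a b)) := by
  have h : b m = fu 𝕜 a b (2 * m + 1) + (b m).comp (Pr 𝕜 a b (2 * m + 1)) := by
    have h1 : ¬ ((2 * m + 1) % 2 = 0) := by omega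
    have h2 : (2 * m + 1) / 2 = m := by omega
    unfold fu newPair
    simp only [h1, if_false, h2]
    ext x
    simp
  rw [h]
  exact Submodule.add_mem _ (Submodule.subset_span ⟨_, rfl⟩) (comp_Pr_mem 𝕜 a b _ _)

end Recursion

/-- A functional that vanishes on a closed subspace and not at a point outside. -/
theorem exists_dual_of_notMem (𝕜 : Type u) [RCLike 𝕜] {E : Type v} [NormedAddCommGroup E]
    [NormedSpace 𝕜 E] (N : Submodule 𝕜 E) (hN : IsClosed (N : Set E)) (z : E) (hz : z ∉ N) :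
    ∃ g : StrongDual 𝕜 E, g z ≠ 0 ∧ ∀ w ∈ N, g w = 0 := by
  haveI : IsClosed (N : Set E) := hN
  have h0 : (Submodule.Quotient.mk z : E ⧸ N) ≠ 0 := by
    rw [Ne, Submodule.Quotient.mk_eq_zero]; exact hz
  obtain ⟨g, hg⟩ := SeparatingDual.exists_ne_zero (R := 𝕜) h0
  refine ⟨g.comp N.mkQL, ?_, ?_⟩
  · simpa using hg
  · intro w hw
    have : (Submodule.Quotient.mk w : E ⧸ N) = 0 := by
      rw [Submodule.Quotient.mk_eq_zero]; exact hw
    simp only [ContinuousLinearMap.comp_apply, Submodule.mkQL_apply, Submodule.mkQ_apply]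
    rw [this, map_zero]

/-- If the dual of an infinite-dimensional normed space is separable, there is a biorthogonal
sequence whose vectors span a dense subspace of the space and whose functionals span a dense
subspace of the dual. -/
theorem exists_two_sided (𝕜 : Type u) [RCLike 𝕜] (E : Type v) [NormedAddCommGroup E]
    [NormedSpace 𝕜 E] [TopologicalSpace.SeparableSpace (StrongDual 𝕜 E)]
    (hinf : ¬ FiniteDimensional 𝕜 E) :
    ∃ (x : ℕ → E) (f : ℕ → StrongDual 𝕜 E),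
      (∀ i j, f i (x j) = if i = j then 1 else 0) ∧
      Dense ((Submodule.span 𝕜 (Set.range x) : Submodule 𝕜 E) : Set E) ∧
      Dense ((Submodule.span 𝕜 (Set.range f) : Submodule 𝕜 (StrongDual 𝕜 E)) :
        Set (StrongDual 𝕜 E)) := by
  classical
  obtain ⟨b, hb⟩ := TopologicalSpace.exists_dense_seq (StrongDual 𝕜 E)
  -- nearly norming vectors
  have hnorm : ∀ m, ∃ z : E, ‖z‖ ≤ 1 ∧ ‖b m‖ / 2 ≤ ‖b m z‖ := by
    intro m
    by_cases h0 : b m = 0
    · exact ⟨0, by simp, by simp [h0]⟩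
    · have hpos : 0 < ‖b m‖ := norm_pos_iff.mpr h0
      obtain ⟨z, hz1, hz2⟩ := (b m).exists_lt_apply_of_lt_opNorm
        (show ‖b m‖ / 2 < ‖b m‖ by linarith)
      exact ⟨z, hz1.le, hz2.le⟩
  choose a ha1 ha2 using hnorm
  have hda : Dense ((Submodule.span 𝕜 (Set.range a) : Submodule 𝕜 E) : Set E) := by
    rw [Submodule.dense_iff_topologicalClosure_eq_top]
    by_contra hne
    obtain ⟨z, hz⟩ : ∃ z, z ∉ (Submodule.span 𝕜 (Set.range a)).topologicalClosure := by
      by_contra hcon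
      push Not at hcon
      exact hne (eq_top_iff.mpr fun z _ => hcon z)
    obtain ⟨g, hg0, hg1⟩ : ∃ g : StrongDual 𝕜 E, g z ≠ 0 ∧
        ∀ w ∈ (Submodule.span 𝕜 (Set.range a)).topologicalClosure, g w = 0 := by
      exact exists_dual_of_notMem 𝕜 _ (Submodule.isClosed_topologicalClosure _) z hz
    have hgne : g ≠ 0 := by rintro rfl; exact hg0 rfl
    have hgpos : 0 < ‖g‖ := norm_pos_iff.mpr hgne
    obtain ⟨m, hm⟩ := hb.exists_dist_lt g (show (0 : ℝ) < ‖g‖ / 4 by linarith)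
    have h1 : ‖b m (a m)‖ ≤ ‖g‖ / 4 := by
      have h2 : g (a m) = 0 := hg1 _ (Submodule.le_topologicalClosure _
        (Submodule.subset_span ⟨m, rfl⟩))
      have h3 : b m (a m) = (b m - g) (a m) := by rw [_root_.sub_apply, h2, sub_zero]
      rw [h3]
      calc ‖(b m - g) (a m)‖ ≤ ‖b m - g‖ * ‖a m‖ := (b m - g).le_opNorm _
        _ ≤ ‖b m - g‖ * 1 := by gcongr; exact ha1 m
        _ ≤ ‖g‖ / 4 := by
            rw [mul_one, ← dist_eq_norm, dist_comm]; exact hm.le
    have h4 : ‖g‖ - ‖g‖ / 4 ≤ ‖b m‖ := by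
      have := norm_sub_norm_le g (b m)
      rw [← dist_eq_norm] at this
      linarith
    have := ha2 m
    linarith
  -- the degenerate system
  set X := ve 𝕜 a b with hX
  set F := fu 𝕜 a b with hF
  have hdX : Dense ((Submodule.span 𝕜 (Set.range X) : Submodule 𝕜 E) : Set E) := by
    refine hda.mono ?_
    have : Submodule.span 𝕜 (Set.range a) ≤ Submodule.span 𝕜 (Set.range X) := by
      rw [Submodule.span_le]
      rintro _ ⟨m, rfl⟩
      exact a_mem 𝕜 a b m
    exact this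
  have hdF : Dense ((Submodule.span 𝕜 (Set.range F) : Submodule 𝕜 (StrongDual 𝕜 E)) :
        Set (StrongDual 𝕜 E)) := by
    refine hb.mono ?_
    rintro _ ⟨m, rfl⟩
    exact b_mem 𝕜 a b m
  -- the nondegenerate indices
  let J : Set ℕ := {n | X n ≠ 0}
  have hXspan : Submodule.span 𝕜 (Set.range X) = Submodule.span 𝕜 (X '' J) := by
    apply le_antisymm
    · rw [Submodule.span_le]
      rintro _ ⟨n, rfl⟩
      by_cases h : X n = 0
      · rw [h]; exact Submodule.zero_mem _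
      · exact Submodule.subset_span ⟨n, h, rfl⟩
    · exact Submodule.span_mono (Set.image_subset_range _ _)
  have hFspan : Submodule.span 𝕜 (Set.range F) = Submodule.span 𝕜 (F '' J) := by
    apply le_antisymm
    · rw [Submodule.span_le]
      rintro _ ⟨n, rfl⟩
      by_cases h : X n = 0
      · rcases fu_ve 𝕜 a b n with h' | ⟨-, h'⟩
        · rw [← hX, ← hF, h, map_zero] at h'
          exact absurd h' zero_ne_one
        · rw [← hF] at h'
          rw [h']; exact Submodule.zero_mem _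
      · exact Submodule.subset_span ⟨n, h, rfl⟩
    · exact Submodule.span_mono (Set.image_subset_range _ _)
  have hJ : J.Infinite := by
    intro hfin
    apply hinf
    have h1 : FiniteDimensional 𝕜 (Submodule.span 𝕜 (X '' J)) :=
      FiniteDimensional.span_of_finite 𝕜 (hfin.image X)
    have h2 : IsClosed ((Submodule.span 𝕜 (X '' J) : Submodule 𝕜 E) : Set E) :=
      Submodule.closed_of_finiteDimensional _
    have h3 : ((Submodule.span 𝕜 (X '' J) : Submodule 𝕜 E) : Set E) = Set.univ := by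
      rw [← hXspan] at h2 ⊢
      rw [← h2.closure_eq]
      exact hdX.closure_eq
    have h4 : (Submodule.span 𝕜 (X '' J) : Submodule 𝕜 E) = ⊤ := by
      apply SetLike.coe_injective
      rw [h3]; rfl
    rw [h4] at h1
    exact Module.finite_def.mpr (Module.Finite.iff_fg.mp h1)
  obtain ⟨s⟩ : Nonempty (ℕ ≃ J) := by
    have : Infinite J := hJ.to_subtype
    exact nonempty_equiv_of_countable
  have hrX : Set.range (fun n => X (s n)) = X '' J := by
    ext z
    constructor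
    · rintro ⟨n, rfl⟩; exact ⟨s n, (s n).2, rfl⟩
    · rintro ⟨n, hn, rfl⟩; exact ⟨s.symm ⟨n, hn⟩, by simp⟩
  have hrF : Set.range (fun n => F (s n)) = F '' J := by
    ext z
    constructor
    · rintro ⟨n, rfl⟩; exact ⟨s n, (s n).2, rfl⟩
    · rintro ⟨n, hn, rfl⟩; exact ⟨s.symm ⟨n, hn⟩, by simp⟩
  refine ⟨fun n => X (s n), fun n => F (s n), ?_, ?_, ?_⟩
  · intro i j
    by_cases h : i = j
    · subst h
      rw [if_pos rfl]
      rcases fu_ve 𝕜 a b (s i) with h' | ⟨h', -⟩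
      · exact h'
      · exact absurd h' (s i).2
    · rw [if_neg h]
      exact biorth 𝕜 a b fun h' => h (s.injective (Subtype.ext h'))
  · rw [hrX, ← hXspan]; exact hdX
  · rw [hrF, ← hFspan]; exact hdF

end Pool.Agent.Helper65.Strong
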