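import Mathlib

/-!
# A pair of orthogonal matrices in general position, and two bounds
-/

set_option autoImplicit false

namespace Pool.Agent.Helper65.Strong

universe u v

/-- Two matrices with orthogonal rows: any `d` columns of the first span, and any `e` columns of the
second are a total family. -/
theorem exists_mds (𝕜 : Type u) [Field 𝕜] [CharZero 𝕜] (d e : ℕ) :
    ∃ (U : Fin d → Fin (d + e) → 𝕜) (H : Fin e → Fin (d + e) → 𝕜),
      (∀ i j, ∑ l, U i l * H j l = 0) ∧
      (∀ A : Finset (Fin (d + e)), d ≤ A.card → ∀ a : Fin d → 𝕜,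
        ∃ c : Fin (d + e) → 𝕜, (∀ l, l ∉ A → c l = 0) ∧ ∀ i, ∑ l, c l * U i l = a i) ∧
      (∀ A : Finset (Fin (d + e)), e ≤ A.card → ∀ α : Fin e → 𝕜,
        (∀ l ∈ A, ∑ j, α j * H j l = 0) → α = 0) := by
  classical
  let U : Fin d → Fin (d + e) → 𝕜 := fun i l => ((l : ℕ) : 𝕜) ^ (i : ℕ)
  -- enumerations of sets of size `d`
  have hV : ∀ s : Fin d → Fin (d + e), Function.Injective s →
      (Matrix.vandermonde fun k => ((s k : ℕ) : 𝕜)).det ≠ 0 := by
    intro s hs
    rw [Matrix.det_vandermonde_ne_zero_iff]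
    intro i j hij
    apply hs
    apply Fin.ext
    have hij' : ((s i : ℕ) : 𝕜) = ((s j : ℕ) : 𝕜) := hij
    exact_mod_cast hij'
  have hsum : ∀ (s : Fin d → Fin (d + e)) (hs : Function.Injective s) (c : Fin (d + e) → 𝕜)
      (hc : ∀ l, l ∉ Set.range s → c l = 0) (i : Fin d),
      ∑ l, c l * U i l = ∑ k, c (s k) * U i (s k) := by
    intro s hs c hc i
    have h1 : ∑ l ∈ Finset.univ.map ⟨s, hs⟩, c l * U i l = ∑ k, c (s k) * U i (s k) := by
      rw [Finset.sum_map]; rfl
    rw [← h1]
    symm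
    apply Finset.sum_subset (Finset.subset_univ _)
    intro l _ hl
    rw [hc l, zero_mul]
    rintro ⟨k, rfl⟩
    exact hl (Finset.mem_map.mpr ⟨k, Finset.mem_univ _, rfl⟩)
  have hspan : ∀ A : Finset (Fin (d + e)), d ≤ A.card → ∀ a : Fin d → 𝕜,
        ∃ c : Fin (d + e) → 𝕜, (∀ l, l ∉ A → c l = 0) ∧ ∀ i, ∑ l, c l * U i l = a i := by
    intro A hA a
    obtain ⟨B, hBA, hB⟩ := Finset.exists_subset_card_eq hA
    let s : Fin d → Fin (d + e) := fun k => B.orderEmbOfFin hB k
    have hs : Function.Injective s := (B.orderEmbOfFin hB).injective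
    have hsB : ∀ k, s k ∈ B := fun k => Finset.orderEmbOfFin_mem B hB k
    let W := Matrix.vandermonde fun k => ((s k : ℕ) : 𝕜)
    have hW : IsUnit W.det := isUnit_iff_ne_zero.mpr (hV s hs)
    let c' : Fin d → 𝕜 := Matrix.vecMul a W⁻¹
    have hc' : Matrix.vecMul c' W = a := by
      simp only [c', Matrix.vecMul_vecMul]
      rw [Matrix.nonsing_inv_mul _ hW, Matrix.vecMul_one]
    let c : Fin (d + e) → 𝕜 := fun l => ∑ k, if s k = l then c' k else 0
    have hcs : ∀ k, c (s k) = c' k := by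
      intro k
      simp only [c]
      rw [Finset.sum_eq_single k]
      · simp
      · intro k' _ hk'
        rw [if_neg fun h => hk' (hs h)]
      · simp
    have hc0 : ∀ l, l ∉ Set.range s → c l = 0 := by
      intro l hl
      simp only [c]
      refine Finset.sum_eq_zero fun k _ => ?_
      rw [if_neg fun h => hl ⟨k, h⟩]
    refine ⟨c, ?_, ?_⟩
    · intro l hl
      apply hc0
      rintro ⟨k, rfl⟩
      exact hl (hBA (hsB k))
    · intro i
      rw [hsum s hs c hc0]
      have := congrFun hc' i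
      rw [← this]
      simp only [Matrix.vecMul, dotProduct, hcs]
      rfl
  have hind : ∀ c : Fin (d + e) → 𝕜, (∀ i, ∑ l, c l * U i l = 0) →
      (Finset.univ.filter fun l => c l ≠ 0).card ≤ d → c = 0 := by
    intro c hc hcard
    obtain ⟨B, hBA, hB⟩ := Finset.exists_superset_card_eq hcard (by simp)
    let s : Fin d → Fin (d + e) := fun k => B.orderEmbOfFin hB k
    have hs : Function.Injective s := (B.orderEmbOfFin hB).injective
    have hr : ∀ l, l ∉ Set.range s → c l = 0 := by
      intro l hl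
      by_contra h
      apply hl
      have h1 : l ∈ B := hBA (Finset.mem_filter.mpr ⟨Finset.mem_univ _, h⟩)
      have h2 : l ∈ Set.range (B.orderEmbOfFin hB) := by
        rw [Finset.range_orderEmbOfFin]; exact h1
      exact h2
    have hz : Matrix.vecMul (fun k => c (s k)) (Matrix.vandermonde fun k => ((s k : ℕ) : 𝕜)) = 0 := by
      ext i
      have := hc i
      rw [hsum s hs c hr] at this
      rw [Pi.zero_apply, ← this]
      rfl
    have hz' := Matrix.eq_zero_of_vecMul_eq_zero (hV s hs) hz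
    ext l
    by_cases hl : l ∈ Set.range s
    · obtain ⟨k, rfl⟩ := hl
      exact congrFun hz' k
    · exact hr l hl
  -- the kernel
  let L : (Fin (d + e) → 𝕜) →ₗ[𝕜] (Fin d → 𝕜) :=
    { toFun := fun c i => ∑ l, c l * U i l
      map_add' := by
        intro c c'
        ext i
        simp [add_mul, Finset.sum_add_distrib]
      map_smul' := by
        intro r c
        ext i
        simp [Finset.mul_sum, mul_assoc] }
  have hLs : Function.Surjective L := by
    intro a
    obtain ⟨c, -, hc⟩ := hspan Finset.univ (by simp) a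
    exact ⟨c, funext hc⟩
  have hfr : Module.finrank 𝕜 (LinearMap.ker L) = e := by
    have h1 := LinearMap.finrank_range_add_finrank_ker L
    rw [LinearMap.range_eq_top.mpr hLs, finrank_top] at h1
    simp only [Module.finrank_fintype_fun_eq_card, Fintype.card_fin] at h1
    omega
  let b : Module.Basis (Fin e) 𝕜 (LinearMap.ker L) :=
    (Module.finBasisOfFinrankEq 𝕜 (LinearMap.ker L) hfr)
  let H : Fin e → Fin (d + e) → 𝕜 := fun j => (b j : Fin (d + e) → 𝕜)
  have hUH : ∀ i j, ∑ l, U i l * H j l = 0 := by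
    intro i j
    have h1 : L (b j : Fin (d + e) → 𝕜) = 0 := (b j).2
    have h2 := congrFun h1 i
    rw [Pi.zero_apply] at h2
    rw [← h2]
    exact Finset.sum_congr rfl fun l _ => mul_comm _ _
  refine ⟨U, H, hUH, hspan, ?_⟩
  intro A hA α hα
  let c : Fin (d + e) → 𝕜 := fun l => ∑ j, α j * H j l
  have hc0 : c = 0 := by
    apply hind
    · intro i
      simp only [c, Finset.sum_mul]
      rw [Finset.sum_comm]
      refine Finset.sum_eq_zero fun j _ => ?_
      have : ∑ l, α j * H j l * U i l = α j * ∑ l, U i l * H j l := by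
        rw [Finset.mul_sum]
        exact Finset.sum_congr rfl fun l _ => by ring
      rw [this, hUH, mul_zero]
    · have h1 : (Finset.univ.filter fun l => c l ≠ 0) ⊆ Aᶜ := by
        intro l hl
        rw [Finset.mem_compl]
        intro hlA
        exact (Finset.mem_filter.mp hl).2 (hα l hlA)
      have h2 := Finset.card_le_card h1
      rw [Finset.card_compl, Fintype.card_fin] at h2
      omega
  have h3 : ∑ j, α j • b j = 0 := by
    apply Subtype.ext
    rw [Submodule.coe_sum]
    ext l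
    have := congrFun hc0 l
    simpa [c, H, Finset.sum_apply] using this
  have h4 := Fintype.linearIndependent_iff.mp b.linearIndependent α h3
  exact funext h4

/-- Bounded solutions: every vector in the span of some of finitely many vectors is a combination
of them with coefficients bounded by the norm. -/
theorem bounded_coeffs (𝕜 : Type u) [RCLike 𝕜] {V : Type v} [NormedAddCommGroup V]
    [NormedSpace 𝕜 V] {J : Type} [Fintype J] (M : J → V) :
    ∃ K : ℝ, 0 < K ∧ ∀ (A : Set J) (a : V), a ∈ Submodule.span 𝕜 (M '' A) →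
      ∃ c : J → 𝕜, (∀ i, i ∉ A → c i = 0) ∧ ∑ i, c i • M i = a ∧ ∀ i, ‖c i‖ ≤ K * ‖a‖ := by
  classical
  have key : ∀ A : Set J, ∃ K : ℝ, 0 ≤ K ∧ ∀ a : V, a ∈ Submodule.span 𝕜 (M '' A) →
      ∃ c : J → 𝕜, (∀ i, i ∉ A → c i = 0) ∧ ∑ i, c i • M i = a ∧ ∀ i, ‖c i‖ ≤ K * ‖a‖ := by
    intro A
    let Λ : (A → 𝕜) →ₗ[𝕜] V := Fintype.linearCombination 𝕜 (fun i : A => M i)
    have hrange : LinearMap.range Λ = Submodule.span 𝕜 (M '' A) := by
      rw [Fintype.range_linearCombination, Set.image_eq_range]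
    obtain ⟨R, hR⟩ := (Λ.rangeRestrict).exists_rightInverse_of_surjective
      (LinearMap.range_rangeRestrict Λ)
    have : FiniteDimensional 𝕜 (LinearMap.range Λ) := inferInstance
    let R' : LinearMap.range Λ →L[𝕜] (A → 𝕜) := LinearMap.toContinuousLinearMap R
    refine ⟨‖R'‖, norm_nonneg _, ?_⟩
    intro a ha
    rw [← hrange] at ha
    have h1 : Λ (R ⟨a, ha⟩) = a := by
      have := LinearMap.congr_fun hR ⟨a, ha⟩
      exact congrArg Subtype.val this
    refine ⟨fun i => if h : i ∈ A then R ⟨a, ha⟩ ⟨i, h⟩ else 0, ?_, ?_, ?_⟩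
    · intro i hi
      simp [hi]
    · refine Eq.trans ?_ h1
      simp only [Λ, Fintype.linearCombination_apply]
      have h2 : ∑ i : J, (if h : i ∈ A then R ⟨a, ha⟩ ⟨i, h⟩ else 0) • M i =
          ∑ i ∈ A.toFinset, (if h : i ∈ A then R ⟨a, ha⟩ ⟨i, h⟩ else 0) • M i := by
        symm
        apply Finset.sum_subset (Finset.subset_univ _)
        intro i _ hi
        have hi' : i ∉ A := fun h => hi (Set.mem_toFinset.mpr h)
        simp [hi']
      rw [h2, ← Finset.sum_coe_sort]
      refine Fintype.sum_equiv (Equiv.subtypeEquivRight fun i => Set.mem_toFinset) _ _ ?_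
      rintro ⟨i, hi⟩
      have hi' : i ∈ A := Set.mem_toFinset.mp hi
      simp only [hi', dif_pos]
      rfl
    · intro i
      by_cases hi : i ∈ A
      · simp only [hi, dif_pos]
        calc ‖R ⟨a, ha⟩ ⟨i, hi⟩‖ ≤ ‖R ⟨a, ha⟩‖ := norm_le_pi_norm (R ⟨a, ha⟩) ⟨i, hi⟩
          _ = ‖R' ⟨a, ha⟩‖ := rfl
          _ ≤ ‖R'‖ * ‖(⟨a, ha⟩ : LinearMap.range Λ)‖ := R'.le_opNorm _
          _ = ‖R'‖ * ‖a‖ := rfl
      · simp only [hi, dif_neg, not_false_iff, norm_zero]
        positivity
  choose K hK0 hK using key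
  refine ⟨∑ A, K A + 1, by
    have := Finset.sum_nonneg (fun A (_ : A ∈ (Finset.univ : Finset (Set J))) => hK0 A)
    linarith, ?_⟩
  intro A a ha
  obtain ⟨c, h1, h2, h3⟩ := hK A a ha
  refine ⟨c, h1, h2, fun i => (h3 i).trans ?_⟩
  have h4 : K A ≤ ∑ A, K A := Finset.single_le_sum (fun A _ => hK0 A) (Finset.mem_univ A)
  exact mul_le_mul_of_nonneg_right (by linarith) (norm_nonneg _)

/-- Bounded inverse: if some columns are total, the coefficients are bounded by the values on
them. -/
theorem bounded_inverse (𝕜 : Type u) [RCLike 𝕜] {e N : ℕ} (H : Fin e → Fin N → 𝕜) :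
    ∃ K : ℝ, 0 < K ∧ ∀ A : Finset (Fin N),
      (∀ α : Fin e → 𝕜, (∀ l ∈ A, ∑ j, α j * H j l = 0) → α = 0) →
      ∀ (α : Fin e → 𝕜) (s : ℝ), 0 ≤ s → (∀ l ∈ A, ‖∑ j, α j * H j l‖ ≤ s) →
        ∀ j, ‖α j‖ ≤ K * s := by
  classical
  have key : ∀ A : Finset (Fin N), ∃ K : ℝ, 0 ≤ K ∧
      ((∀ α : Fin e → 𝕜, (∀ l ∈ A, ∑ j, α j * H j l = 0) → α = 0) →
      ∀ (α : Fin e → 𝕜) (s : ℝ), 0 ≤ s → (∀ l ∈ A, ‖∑ j, α j * H j l‖ ≤ s) →
        ∀ j, ‖α j‖ ≤ K * s) := by
    intro A
    by_cases hA : ∀ α : Fin e → 𝕜, (∀ l ∈ A, ∑ j, α j * H j l = 0) → α = 0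
    · let T : (Fin e → 𝕜) →ₗ[𝕜] (A → 𝕜) :=
        { toFun := fun α l => ∑ j, α j * H j l
          map_add' := by
            intro c c'
            ext i
            simp [add_mul, Finset.sum_add_distrib]
          map_smul' := by
            intro r c
            ext i
            simp [Finset.mul_sum, mul_assoc] }
      have hT : Function.Injective T := by
        rw [← LinearMap.ker_eq_bot, LinearMap.ker_eq_bot']
        intro α hα
        apply hA
        intro l hl
        exact congrFun hα ⟨l, hl⟩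
      obtain ⟨K, -, hK⟩ := T.injective_iff_antilipschitz.mp hT
      refine ⟨K, K.2, fun _ α s hs hα j => ?_⟩
      have h1 := hK.le_mul_dist α 0
      rw [dist_zero_right, map_zero, dist_zero_right] at h1
      have h2 : ‖T α‖ ≤ s := by
        rw [pi_norm_le_iff_of_nonneg hs]
        rintro ⟨l, hl⟩
        exact hα l hl
      calc ‖α j‖ ≤ ‖α‖ := norm_le_pi_norm α j
        _ ≤ K * ‖T α‖ := h1
        _ ≤ K * s := by gcongr
    · exact ⟨0, le_rfl, fun h => absurd h hA⟩
  choose K hK0 hK using key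
  refine ⟨∑ A, K A + 1, by
    have := Finset.sum_nonneg (fun A (_ : A ∈ (Finset.univ : Finset (Finset (Fin N)))) => hK0 A)
    linarith, ?_⟩
  intro A hA α s hs hα j
  refine (hK A hA α s hs hα j).trans ?_
  have h4 : K A ≤ ∑ A, K A := Finset.single_le_sum (fun A _ => hK0 A) (Finset.mem_univ A)
  exact mul_le_mul_of_nonneg_right (by linarith) hs

end Pool.Agent.Helper65.Strong
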