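import Mathlib
import Pool.Agent.Helper65_strong.Mds

/-!
# One block of the perturbation
-/

set_option autoImplicit false

open Filter Topology

namespace Pool.Agent.Helper65.Strong

universe u v

section Basic

variable {𝕜 : Type u} [RCLike 𝕜] {Y : Type v} [NormedAddCommGroup Y] [NormedSpace 𝕜 Y]
  (y : ℕ → Y) (φ : ℕ → StrongDual 𝕜 Y)

/-- partial sum operators -/
noncomputable def S (k : ℕ) : Y →L[𝕜] Y := ∑ i ∈ Finset.range k, (φ i).smulRight (y i)

theorem S_apply (k : ℕ) (v : Y) : S y φ k v = ∑ i ∈ Finset.range k, φ i v • y i := by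
  simp [S]

theorem S_diff (k n : ℕ) (v : Y) :
    S y φ (k + n) v - S y φ k v = ∑ i : Fin n, φ (k + i) v • y (k + i) := by
  rw [S_apply, S_apply, Finset.sum_range_add, add_sub_cancel_left,
    Fin.sum_univ_eq_sum_range (fun i => φ (k + i) v • y (k + i)) n]

theorem S_mem (k : ℕ) (v : Y) : S y φ k v ∈ Submodule.span 𝕜 (y '' Set.Iio k) := by
  rw [S_apply]
  refine Submodule.sum_mem _ fun i hi => Submodule.smul_mem _ _ (Submodule.subset_span ?_)
  exact ⟨i, Finset.mem_range.mp hi, rfl⟩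

variable (hbi : ∀ i j, φ i (y j) = if i = j then 1 else 0)

include hbi

theorem S_y (k j : ℕ) : S y φ k (y j) = if j < k then y j else 0 := by
  rw [S_apply]
  simp only [hbi, ite_smul, one_smul, zero_smul]
  rw [Finset.sum_ite_eq' (Finset.range k) j (fun i => y i)]
  simp

theorem S_of_mem (k : ℕ) (a : Y) (ha : a ∈ Submodule.span 𝕜 (y '' Set.Iio k)) :
    S y φ k a = a := by
  induction ha using Submodule.span_induction with
  | mem x hx =>
    obtain ⟨i, hi, rfl⟩ := hx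
    rw [S_y y φ hbi, if_pos (Set.mem_Iio.mp hi)]
  | zero => rw [map_zero]
  | add x z _ _ hx hz => rw [map_add, hx, hz]
  | smul c x _ hx => rw [map_smul, hx]

theorem S_tail (k : ℕ) (a : Y) (ha : a ∈ Submodule.span 𝕜 (y '' Set.Ici k)) :
    S y φ k a = 0 := by
  induction ha using Submodule.span_induction with
  | mem x hx =>
    obtain ⟨i, hi, rfl⟩ := hx
    rw [S_y y φ hbi, if_neg (not_lt.mpr hi)]
  | zero => rw [map_zero]
  | add x z _ _ hx hz => rw [map_add, hx, hz, add_zero]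
  | smul c x _ hx => rw [map_smul, hx, smul_zero]

theorem phi_S (k i : ℕ) (hi : i < k) (v : Y) : φ i (S y φ k v) = φ i v := by
  rw [S_apply, map_sum]
  simp only [map_smul, hbi, smul_eq_mul, mul_ite, mul_one, mul_zero]
  rw [Finset.sum_ite_eq]
  simp [hi]

theorem theta_S (k : ℕ) (θ : StrongDual 𝕜 Y) (hθ : θ ∈ Submodule.span 𝕜 (φ '' Set.Iio k)) (v : Y) :
    θ (S y φ k v) = θ v := by
  induction hθ using Submodule.span_induction with
  | mem x hx =>
    obtain ⟨i, hi, rfl⟩ := hx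
    exact phi_S y φ hbi k i hi v
  | zero => simp
  | add x z _ _ hx hz => simp [hx, hz]
  | smul c x _ hx => simp [hx]

theorem span_split (k : ℕ) (a : Y) (ha : a ∈ Submodule.span 𝕜 (Set.range y)) :
    a - S y φ k a ∈ Submodule.span 𝕜 (y '' Set.Ici k) := by
  induction ha using Submodule.span_induction with
  | mem x hx =>
    obtain ⟨i, rfl⟩ := hx
    rw [S_y y φ hbi]
    by_cases hi : i < k
    · rw [if_pos hi, sub_self]; exact Submodule.zero_mem _
    · rw [if_neg hi, sub_zero]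
      exact Submodule.subset_span ⟨i, not_lt.mp hi, rfl⟩
  | zero => rw [map_zero, sub_zero]; exact Submodule.zero_mem _
  | add x z _ _ hx hz =>
    rw [map_add]
    have : x + z - (S y φ k x + S y φ k z) = (x - S y φ k x) + (z - S y φ k z) := by abel
    rw [this]; exact Submodule.add_mem _ hx hz
  | smul c x _ hx =>
    rw [map_smul, ← smul_sub]; exact Submodule.smul_mem _ _ hx

theorem sub_S_mem_closure (hd : Dense ((Submodule.span 𝕜 (Set.range y) : Submodule 𝕜 Y) : Set Y))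
    (k : ℕ) (v : Y) :
    v - S y φ k v ∈ closure ((Submodule.span 𝕜 (y '' Set.Ici k) : Submodule 𝕜 Y) : Set Y) := by
  have h1 : Continuous fun v : Y => v - S y φ k v := continuous_id.sub (S y φ k).continuous
  have h2 := h1.range_subset_closure_image_dense hd
  have h3 : v - S y φ k v ∈ Set.range fun v : Y => v - S y φ k v := ⟨v, rfl⟩
  refine closure_mono ?_ (h2 h3)
  rintro _ ⟨a, ha, rfl⟩
  exact span_split y φ hbi k a ha

omit hbi in
theorem exists_mem_Ico (k : ℕ) (t : Y) (ht : t ∈ Submodule.span 𝕜 (y '' Set.Ici k)) :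
    ∃ n, t ∈ Submodule.span 𝕜 (y '' Set.Ico k n) := by
  have hmono : ∀ {n m : ℕ}, n ≤ m → Submodule.span 𝕜 (y '' Set.Ico k n) ≤
      Submodule.span 𝕜 (y '' Set.Ico k m) := fun h =>
    Submodule.span_mono (Set.image_mono (Set.Ico_subset_Ico_right h))
  induction ht using Submodule.span_induction with
  | mem x hx =>
    obtain ⟨i, hi, rfl⟩ := hx
    exact ⟨i + 1, Submodule.subset_span ⟨i, ⟨hi, Nat.lt_succ_self i⟩, rfl⟩⟩
  | zero => exact ⟨0, Submodule.zero_mem _⟩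
  | add x z _ _ hx hz =>
    obtain ⟨n, hn⟩ := hx
    obtain ⟨m, hm⟩ := hz
    exact ⟨max n m, Submodule.add_mem _ (hmono (le_max_left _ _) hn) (hmono (le_max_right _ _) hm)⟩
  | smul c x _ hx =>
    obtain ⟨n, hn⟩ := hx
    exact ⟨n, Submodule.smul_mem _ _ hn⟩

omit hbi in
theorem exists_mem_Iio (θ : StrongDual 𝕜 Y) (hθ : θ ∈ Submodule.span 𝕜 (Set.range φ)) :
    ∃ n, θ ∈ Submodule.span 𝕜 (φ '' Set.Iio n) := by
  have hmono : ∀ {n m : ℕ}, n ≤ m → Submodule.span 𝕜 (φ '' Set.Iio n) ≤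
      Submodule.span 𝕜 (φ '' Set.Iio m) := fun h =>
    Submodule.span_mono (Set.image_mono (Set.Iio_subset_Iio h))
  induction hθ using Submodule.span_induction with
  | mem x hx =>
    obtain ⟨i, rfl⟩ := hx
    exact ⟨i + 1, Submodule.subset_span ⟨i, Nat.lt_succ_self i, rfl⟩⟩
  | zero => exact ⟨0, Submodule.zero_mem _⟩
  | add x z _ _ hx hz =>
    obtain ⟨n, hn⟩ := hx
    obtain ⟨m, hm⟩ := hz
    exact ⟨max n m, Submodule.add_mem _ (hmono (le_max_left _ _) hn) (hmono (le_max_right _ _) hm)⟩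
  | smul c x _ hx =>
    obtain ⟨n, hn⟩ := hx
    exact ⟨n, Submodule.smul_mem _ _ hn⟩

/-- distance to a far part of the tail, uniformly on the finite part -/
theorem compactA (k : ℕ) : ∃ n, ∀ w ∈ Submodule.span 𝕜 (y '' Set.Iio k),
    ∀ t ∈ Submodule.span 𝕜 (y '' Set.Ici k),
      ∃ u ∈ Submodule.span 𝕜 (y '' Set.Ico k n), ‖w - u‖ ≤ 2 * ‖w - t‖ := by
  classical
  set Fk := Submodule.span 𝕜 (y '' Set.Iio k) with hFk
  set T := Submodule.span 𝕜 (y '' Set.Ici k) with hT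
  have hfd : FiniteDimensional 𝕜 Fk := FiniteDimensional.span_of_finite 𝕜 ((Set.finite_Iio k).image y)
  have hprop : ProperSpace Fk := FiniteDimensional.proper 𝕜 Fk
  have hTne : (T : Set Y).Nonempty := ⟨0, T.zero_mem⟩
  have hTn : ∀ n, ((Submodule.span 𝕜 (y '' Set.Ico k n) : Submodule 𝕜 Y) : Set Y).Nonempty :=
    fun n => ⟨0, Submodule.zero_mem _⟩
  let Un : ℕ → Set Fk := fun n => {w | Metric.infDist (w : Y)
    ((Submodule.span 𝕜 (y '' Set.Ico k n) : Submodule 𝕜 Y) : Set Y) < 2 * Metric.infDist (w : Y) T}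
  have hopen : ∀ n, IsOpen (Un n) := fun n =>
    isOpen_lt ((Metric.continuous_infDist_pt _).comp continuous_subtype_val)
      (continuous_const.mul ((Metric.continuous_infDist_pt _).comp continuous_subtype_val))
  have hpos : ∀ w : Fk, w ∈ Metric.sphere (0 : Fk) 1 → 0 < Metric.infDist (w : Y) T := by
    intro w hw
    refine lt_of_le_of_ne Metric.infDist_nonneg fun h => ?_
    have h1 : (w : Y) ∈ closure (T : Set Y) :=
      (Metric.mem_closure_iff_infDist_zero hTne).mpr h.symm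
    have h2 : S y φ k (w : Y) = 0 := by
      have hcl : IsClosed {v : Y | S y φ k v = 0} :=
        isClosed_eq (S y φ k).continuous continuous_const
      have : closure (T : Set Y) ⊆ {v : Y | S y φ k v = 0} :=
        closure_minimal (fun v hv => S_tail y φ hbi k v hv) hcl
      exact this h1
    rw [S_of_mem y φ hbi k _ w.2] at h2
    have h3 : w = 0 := Subtype.ext h2
    rw [h3] at hw
    simp at hw
  have hcover : Metric.sphere (0 : Fk) 1 ⊆ ⋃ n, Un n := by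
    intro w hw
    have h0 := hpos w hw
    obtain ⟨t, ht, hwt⟩ := (Metric.infDist_lt_iff hTne).mp
      (show Metric.infDist (w : Y) T < 2 * Metric.infDist (w : Y) T by linarith)
    obtain ⟨n, hn⟩ := exists_mem_Ico y k t ht
    exact Set.mem_iUnion.mpr ⟨n, lt_of_le_of_lt (Metric.infDist_le_dist_of_mem hn) hwt⟩
  have hmono : Monotone Un := by
    intro n m hnm w hw
    refine lt_of_le_of_lt (Metric.infDist_le_infDist_of_subset ?_ (hTn n)) hw
    exact Submodule.span_mono (Set.image_mono (Set.Ico_subset_Ico_right hnm))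
  obtain ⟨n, hn⟩ := (isCompact_sphere (0 : Fk) 1).elim_directed_cover Un hopen hcover
    hmono.directed_le
  refine ⟨n, fun w hw t ht => ?_⟩
  by_cases hw0 : w = 0
  · exact ⟨0, Submodule.zero_mem _, by rw [hw0, sub_zero, norm_zero]; positivity⟩
  · have hwpos : 0 < ‖w‖ := norm_pos_iff.mpr hw0
    let r : 𝕜 := ((‖w‖ : ℝ) : 𝕜)
    have hr : r ≠ 0 := by
      simp only [r]; exact_mod_cast hwpos.ne'
    have hrn : ‖r‖ = ‖w‖ := by simp [r]
    let w' : Fk := ⟨r⁻¹ • w, Fk.smul_mem _ hw⟩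
    have hw' : w' ∈ Metric.sphere (0 : Fk) 1 := by
      rw [mem_sphere_zero_iff_norm]
      change ‖r⁻¹ • w‖ = 1
      rw [norm_smul, norm_inv, hrn, inv_mul_cancel₀ hwpos.ne']
    have h1 : Metric.infDist (w' : Y) ((Submodule.span 𝕜 (y '' Set.Ico k n) : Submodule 𝕜 Y) : Set Y)
        < 2 * Metric.infDist (w' : Y) T := hn hw'
    have h2 : Metric.infDist (w' : Y) T ≤ ‖r⁻¹ • w - r⁻¹ • t‖ := by
      rw [← dist_eq_norm]
      exact Metric.infDist_le_dist_of_mem (T.smul_mem _ ht)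
    obtain ⟨u, hu, hwu⟩ := (Metric.infDist_lt_iff (hTn n)).mp
      (lt_of_lt_of_le h1 (mul_le_mul_of_nonneg_left h2 (by norm_num)))
    refine ⟨r • u, Submodule.smul_mem _ _ hu, ?_⟩
    have h3 : w - r • u = r • (r⁻¹ • w - u) := by
      rw [smul_sub, smul_smul, mul_inv_cancel₀ hr, one_smul]
    have h4 : dist (w' : Y) u = ‖r⁻¹ • w - u‖ := dist_eq_norm _ _
    rw [h4] at hwu
    rw [h3, norm_smul, hrn]
    have h5 : ‖r⁻¹ • w - r⁻¹ • t‖ = ‖w‖⁻¹ * ‖w - t‖ := by
      rw [← smul_sub, norm_smul, norm_inv, hrn]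
    rw [h5] at hwu
    calc ‖w‖ * ‖r⁻¹ • w - u‖ ≤ ‖w‖ * (2 * (‖w‖⁻¹ * ‖w - t‖)) := by gcongr
      _ = 2 * ‖w - t‖ := by field_simp

theorem lemmaA (hd : Dense ((Submodule.span 𝕜 (Set.range y) : Submodule 𝕜 Y) : Set Y)) (k : ℕ) :
    ∃ d, 1 ≤ d ∧ ∀ v : Y, ∀ a ∈ Submodule.span 𝕜 (y '' Set.Iio k),
      ∃ u ∈ Submodule.span 𝕜 (y '' Set.Ico k (k + d)), ‖v - S y φ k v - u‖ ≤ 4 * ‖v - a‖ := by
  obtain ⟨n, hn⟩ := compactA y φ hbi k
  refine ⟨n + 1, Nat.le_add_left 1 n, fun v a ha => ?_⟩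
  have hle : Submodule.span 𝕜 (y '' Set.Ico k n) ≤ Submodule.span 𝕜 (y '' Set.Ico k (k + (n + 1))) :=
    Submodule.span_mono (Set.image_mono (Set.Ico_subset_Ico_right (by omega)))
  by_cases hz : v - a = 0
  · have hva : v = a := sub_eq_zero.mp hz
    refine ⟨0, Submodule.zero_mem _, ?_⟩
    rw [hva, S_of_mem y φ hbi k a ha]
    simp
  · have hzpos : 0 < ‖v - a‖ := norm_pos_iff.mpr hz
    have h1 : v - a - S y φ k (v - a) ∈
        closure ((Submodule.span 𝕜 (y '' Set.Ici k) : Submodule 𝕜 Y) : Set Y) :=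
      sub_S_mem_closure y φ hbi hd k (v - a)
    obtain ⟨t, ht, hdt⟩ := Metric.mem_closure_iff.mp h1 (‖v - a‖ / 2) (by linarith)
    obtain ⟨u, hu, hu2⟩ := hn (S y φ k (v - a)) (S_mem y φ k _) (-t) (Submodule.neg_mem _ ht)
    refine ⟨-u, Submodule.neg_mem _ (hle hu), ?_⟩
    rw [dist_eq_norm] at hdt
    have h2 : ‖S y φ k (v - a) - -t‖ ≤ 3 / 2 * ‖v - a‖ := by
      have : S y φ k (v - a) - -t = (v - a) - (v - a - S y φ k (v - a) - t) := by abel
      rw [this]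
      calc ‖(v - a) - (v - a - S y φ k (v - a) - t)‖
          ≤ ‖v - a‖ + ‖v - a - S y φ k (v - a) - t‖ := norm_sub_le _ _
        _ ≤ 3 / 2 * ‖v - a‖ := by linarith
    have h3 : v - S y φ k v - -u = (v - a) - (S y φ k (v - a) - u) := by
      rw [map_sub, S_of_mem y φ hbi k a ha]; abel
    rw [h3]
    calc ‖(v - a) - (S y φ k (v - a) - u)‖ ≤ ‖v - a‖ + ‖S y φ k (v - a) - u‖ := norm_sub_le _ _
      _ ≤ ‖v - a‖ + 2 * (3 / 2 * ‖v - a‖) := by linarith
      _ = 4 * ‖v - a‖ := by ring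

theorem lemmaGap (C : ℝ) (hC : 0 ≤ C)
    (hN : ∀ w : Y, w ≠ 0 → ∃ θ ∈ Submodule.span 𝕜 (Set.range φ), ‖θ‖ ≤ 1 ∧ ‖w‖ < C * ‖θ w‖)
    (k : ℕ) : ∃ e, ∀ z : Y,
      ‖S y φ k z‖ ≤ C * (‖z‖ + ‖S y φ (k + e) z - S y φ k z‖) := by
  classical
  set Fk := Submodule.span 𝕜 (y '' Set.Iio k) with hFk
  have hfd : FiniteDimensional 𝕜 Fk := FiniteDimensional.span_of_finite 𝕜 ((Set.finite_Iio k).image y)
  have hprop : ProperSpace Fk := FiniteDimensional.proper 𝕜 Fk
  let Un : ℕ → Set Fk := fun n => {w | ∃ θ ∈ Submodule.span 𝕜 (φ '' Set.Iio n), ‖θ‖ ≤ 1 ∧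
    ‖(w : Y)‖ < C * ‖θ w‖}
  have hopen : ∀ n, IsOpen (Un n) := by
    intro n
    have : Un n = ⋃ θ ∈ {θ : StrongDual 𝕜 Y | θ ∈ Submodule.span 𝕜 (φ '' Set.Iio n) ∧ ‖θ‖ ≤ 1},
        {w : Fk | ‖(w : Y)‖ < C * ‖θ (w : Y)‖} := by
      ext w
      simp only [Un, Set.mem_ofPred_eq, Set.mem_iUnion, exists_prop, and_assoc]
    rw [this]
    refine isOpen_biUnion fun θ _ => ?_
    exact isOpen_lt (continuous_norm.comp continuous_subtype_val)
      (continuous_const.mul (continuous_norm.comp (θ.continuous.comp continuous_subtype_val)))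
  have hcover : Metric.sphere (0 : Fk) 1 ⊆ ⋃ n, Un n := by
    intro w hw
    have hw0 : (w : Y) ≠ 0 := by
      intro h
      have : w = 0 := Subtype.ext h
      rw [this] at hw
      simp at hw
    obtain ⟨θ, hθ, h1, h2⟩ := hN w hw0
    obtain ⟨n, hn⟩ := exists_mem_Iio φ θ hθ
    exact Set.mem_iUnion.mpr ⟨n, θ, hn, h1, h2⟩
  have hmono : Monotone Un := by
    rintro n m hnm w ⟨θ, hθ, h⟩
    exact ⟨θ, Submodule.span_mono (Set.image_mono (Set.Iio_subset_Iio hnm)) hθ, h⟩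
  obtain ⟨n, hn⟩ := (isCompact_sphere (0 : Fk) 1).elim_directed_cover Un hopen hcover
    hmono.directed_le
  refine ⟨n, fun z => ?_⟩
  by_cases hw0 : S y φ k z = 0
  · rw [hw0, norm_zero]; positivity
  · set w := S y φ k z with hwdef
    have hw : w ∈ Fk := S_mem y φ k z
    have hwpos : 0 < ‖w‖ := norm_pos_iff.mpr hw0
    let r : 𝕜 := ((‖w‖ : ℝ) : 𝕜)
    have hr : r ≠ 0 := by
      simp only [r]; exact_mod_cast hwpos.ne'
    have hrn : ‖r‖ = ‖w‖ := by simp [r]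
    let w' : Fk := ⟨r⁻¹ • w, Fk.smul_mem _ hw⟩
    have hw' : w' ∈ Metric.sphere (0 : Fk) 1 := by
      rw [mem_sphere_zero_iff_norm]
      change ‖r⁻¹ • w‖ = 1
      rw [norm_smul, norm_inv, hrn, inv_mul_cancel₀ hwpos.ne']
    obtain ⟨θ, hθ, h1, h2⟩ := hn hw'
    have h3 : ‖r⁻¹ • w‖ < C * ‖θ (r⁻¹ • w)‖ := h2
    rw [map_smul, norm_smul, norm_smul, norm_inv, hrn] at h3
    have h4 : ‖w‖ ≤ C * ‖θ w‖ := by
      have := mul_lt_mul_of_pos_left h3 hwpos
      have e1 : ‖w‖ * (‖w‖⁻¹ * ‖w‖) = ‖w‖ := by field_simp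
      have e2 : ‖w‖ * (C * (‖w‖⁻¹ * ‖θ w‖)) = C * ‖θ w‖ := by field_simp
      rw [e1, e2] at this
      exact this.le
    have hθ' : θ ∈ Submodule.span 𝕜 (φ '' Set.Iio (k + n)) :=
      Submodule.span_mono (Set.image_mono (Set.Iio_subset_Iio (by omega))) hθ
    have h5 : θ z = θ w + θ (S y φ (k + n) z - w) := by
      rw [← map_add, add_sub_cancel, theta_S y φ hbi (k + n) θ hθ']
    have h6 : ‖θ w‖ ≤ ‖z‖ + ‖S y φ (k + n) z - w‖ := by
      have e1 : θ w = θ z - θ (S y φ (k + n) z - w) := by rw [h5]; ring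
      rw [e1]
      calc ‖θ z - θ (S y φ (k + n) z - w)‖ ≤ ‖θ z‖ + ‖θ (S y φ (k + n) z - w)‖ := norm_sub_le _ _
        _ ≤ ‖θ‖ * ‖z‖ + ‖θ‖ * ‖S y φ (k + n) z - w‖ := add_le_add (θ.le_opNorm _) (θ.le_opNorm _)
        _ ≤ 1 * ‖z‖ + 1 * ‖S y φ (k + n) z - w‖ := by gcongr
        _ = ‖z‖ + ‖S y φ (k + n) z - w‖ := by ring
    exact h4.trans (mul_le_mul_of_nonneg_left h6 hC)

end Basic

section BlockDefs

variable {𝕜 : Type u} [RCLike 𝕜]

/-- The index type of a block. -/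
abbrev B (d e : ℕ) : Type := (Fin d ⊕ Fin e) ⊕ Fin (d + e)

/-- The position of a block index in the original sequence. -/
def pos (k d e : ℕ) : B d e → ℕ
  | Sum.inl (Sum.inl i) => k + i
  | Sum.inl (Sum.inr j) => k + d + j
  | Sum.inr l => k + d + e + l

/-- The matrix of the vectors. -/
def PP {d e : ℕ} (U : Fin d → Fin (d + e) → 𝕜) (H : Fin e → Fin (d + e) → 𝕜) (ε R : 𝕜) :
    B d e → B d e → 𝕜
  | Sum.inl (Sum.inl i), Sum.inl (Sum.inl i') => if i = i' then 1 else 0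
  | Sum.inl (Sum.inl _), Sum.inl (Sum.inr _) => 0
  | Sum.inl (Sum.inl _), Sum.inr _ => 0
  | Sum.inl (Sum.inr _), Sum.inl (Sum.inl _) => 0
  | Sum.inl (Sum.inr j), Sum.inl (Sum.inr j') => if j = j' then 1 else 0
  | Sum.inl (Sum.inr j), Sum.inr l => -(R * ε * H j l)
  | Sum.inr l, Sum.inl (Sum.inl i) => U i l
  | Sum.inr _, Sum.inl (Sum.inr _) => 0
  | Sum.inr l, Sum.inr l' => if l = l' then ε else 0

/-- The matrix of the functionals. -/
def QQ {d e : ℕ} (U : Fin d → Fin (d + e) → 𝕜) (H : Fin e → Fin (d + e) → 𝕜) (ε R : 𝕜) :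
    B d e → B d e → 𝕜
  | Sum.inl (Sum.inl i), Sum.inl (Sum.inl i') => if i = i' then 1 else 0
  | Sum.inl (Sum.inl _), Sum.inl (Sum.inr _) => 0
  | Sum.inl (Sum.inl i), Sum.inr l => -(ε⁻¹ * U i l)
  | Sum.inl (Sum.inr _), Sum.inl (Sum.inl _) => 0
  | Sum.inl (Sum.inr j), Sum.inl (Sum.inr j') => if j = j' then 1 else 0
  | Sum.inl (Sum.inr _), Sum.inr _ => 0
  | Sum.inr _, Sum.inl (Sum.inl _) => 0
  | Sum.inr l, Sum.inl (Sum.inr j) => R * H j l
  | Sum.inr l, Sum.inr l' => if l = l' then ε⁻¹ else 0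

theorem PP_QQ {d e : ℕ} (U : Fin d → Fin (d + e) → 𝕜) (H : Fin e → Fin (d + e) → 𝕜) (ε R : 𝕜)
    (hε : ε ≠ 0) (hUH : ∀ i j, ∑ l, U i l * H j l = 0) (a b : B d e) :
    ∑ l, PP U H ε R a l * QQ U H ε R b l = if a = b then 1 else 0 := by
  rw [Fintype.sum_sum_type, Fintype.sum_sum_type]
  rcases a with (i | j) | l <;> rcases b with (i' | j') | l'
  · simp [PP, QQ]
  · simp [PP, QQ]
  · simp [PP, QQ]
  · have h := hUH i' j
    have h2 : ∑ x, -(R * ε * H j x) * -(ε⁻¹ * U i' x) = R * ∑ x, U i' x * H j x := by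
      rw [Finset.mul_sum]
      refine Finset.sum_congr rfl fun x _ => ?_
      field_simp
    simp only [PP, QQ, h2, h]
    simp
  · simp [PP, QQ]
  · simp only [PP, QQ]
    simp only [ite_mul, one_mul, zero_mul, mul_ite, mul_zero, Finset.sum_ite_eq, Finset.mem_univ,
      if_true, Finset.sum_const_zero, zero_add, reduceCtorEq, if_false]
    field_simp
    ring
  · simp only [PP, QQ]
    simp only [mul_ite, mul_one, mul_zero, Finset.sum_ite_eq, Finset.mem_univ,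
      if_true, Finset.sum_const_zero, add_zero, reduceCtorEq, if_false, ite_mul, zero_mul]
    field_simp
    ring
  · simp [PP, QQ]
  · simp only [PP, QQ, mul_zero, zero_mul, Finset.sum_const_zero, zero_add, ite_mul, mul_ite,
      Finset.sum_ite_eq, Finset.mem_univ, if_true, Sum.inr.injEq]
    by_cases h : l' = l
    · subst h; simp [hε]
    · simp [h, Ne.symm h]

end BlockDefs

end Pool.Agent.Helper65.Strong
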