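import Mathlib
import Pool.Agent.Helper65_strong.Block

/-!
# The main estimate for one block
-/

set_option autoImplicit false

open Filter Topology

namespace Pool.Agent.Helper65.Strong

universe u v

variable {𝕜 : Type u} [RCLike 𝕜] {Y : Type v} [NormedAddCommGroup Y] [NormedSpace 𝕜 Y]
  (y : ℕ → Y) (φ : ℕ → StrongDual 𝕜 Y)

/-- The new vectors of a block. -/
noncomputable def GG (k d e : ℕ) (P : B d e → B d e → 𝕜) (i : B d e) : Y :=
  ∑ l, P i l • y (pos k d e l)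

/-- The new functionals of a block. -/
noncomputable def FF (k d e : ℕ) (Q : B d e → B d e → 𝕜) (i : B d e) : StrongDual 𝕜 Y :=
  ∑ l, Q i l • φ (pos k d e l)

theorem FF_apply (k d e : ℕ) (Q : B d e → B d e → 𝕜) (i : B d e) (v : Y) :
    FF φ k d e Q i v = ∑ l, Q i l * φ (pos k d e l) v := by
  simp [FF]

theorem norm_sum_smul_le {n : ℕ} (c : Fin n → 𝕜) (z : Fin n → Y) (b : ℝ)
    (hc : ∀ i, ‖c i‖ ≤ b) : ‖∑ i, c i • z i‖ ≤ b * ∑ i, ‖z i‖ := by
  calc ‖∑ i, c i • z i‖ ≤ ∑ i, ‖c i • z i‖ := norm_sum_le _ _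
    _ ≤ ∑ i, b * ‖z i‖ := by
        refine Finset.sum_le_sum fun i _ => ?_
        rw [norm_smul]
        exact mul_le_mul_of_nonneg_right (hc i) (norm_nonneg _)
    _ = b * ∑ i, ‖z i‖ := by rw [Finset.mul_sum]

theorem choose_eps (K t X δ : ℝ) (hK : 0 ≤ K) (ht : 0 ≤ t) (hX : 0 ≤ X) (hδ : 0 < δ) :
    ∃ ε : ℝ, 0 < ε ∧ ε * (K * t * X) ≤ δ / 2 := by
  have h : 0 ≤ K * t * X := by positivity
  refine ⟨δ / 2 / (K * t * X + 1), by positivity, ?_⟩
  rw [div_mul_eq_mul_div, div_le_iff₀ (by linarith)]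
  nlinarith

theorem choose_R (K Φ Eb C ε δ : ℝ) (hK : 0 ≤ K) (hΦ : 0 ≤ Φ) (hE : 0 ≤ Eb) (hC : 0 ≤ C)
    (hε : 0 < ε) (hδ : 0 < δ) :
    ∃ R : ℝ, 0 < R ∧ K * ((R * ε)⁻¹ * Φ) * Eb * (C + 1) ≤ δ / 2 := by
  obtain ⟨T, hT⟩ : ∃ T, T = K * Φ * Eb * (C + 1) := ⟨_, rfl⟩
  have h : 0 ≤ T := by rw [hT]; positivity
  refine ⟨(T + 1) * 2 / (ε * δ), by positivity, ?_⟩
  have h1 : ((T + 1) * 2 / (ε * δ) * ε)⁻¹ = δ / 2 / (T + 1) := by
    have : (T + 1) ≠ 0 := by linarith
    field_simp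
  rw [h1]
  have h2 : K * (δ / 2 / (T + 1) * Φ) * Eb * (C + 1) = δ / 2 * T / (T + 1) := by
    rw [hT]; ring
  rw [h2, div_le_iff₀ (by linarith)]
  nlinarith

theorem block (hbi : ∀ i j, φ i (y j) = if i = j then 1 else 0)
    (hdense : Dense ((Submodule.span 𝕜 (Set.range y) : Submodule 𝕜 Y) : Set Y))
    (C : ℝ) (hC : 0 ≤ C)
    (hN : ∀ w : Y, w ≠ 0 → ∃ θ ∈ Submodule.span 𝕜 (Set.range φ), ‖θ‖ ≤ 1 ∧ ‖w‖ < C * ‖θ w‖)
    (k : ℕ) (δ : ℝ) (hδ : 0 < δ) :
    ∃ (d e : ℕ), 1 ≤ d ∧ ∃ (P Q : B d e → B d e → 𝕜),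
      (∀ i j, ∑ l, P i l * Q j l = if i = j then 1 else 0) ∧
      ∀ v : Y, ∀ a ∈ Submodule.span 𝕜 (y '' Set.Iio k),
        ∃ w ∈ Submodule.span 𝕜 (GG y k d e P '' {i | FF φ k d e Q i v ≠ 0}),
          ‖v - S y φ k v - w‖ ≤ (4 + C) * ‖v - a‖ + δ * ‖v‖ := by
  classical
  obtain ⟨d, hd1, hA⟩ := lemmaA y φ hbi hdense k
  obtain ⟨e, hE⟩ := lemmaGap y φ hbi C hC hN (k + d)
  obtain ⟨U, H, hUH, hU, hH⟩ := exists_mds 𝕜 d e
  let M : Fin d ⊕ Fin (d + e) → Y := Sum.elim (fun i : Fin d => y (k + i)) (fun l => ∑ i : Fin d, U i l • y (k + i))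
  obtain ⟨K, hK0, hK⟩ := bounded_coeffs 𝕜 M
  obtain ⟨K', hK'0, hK'⟩ := bounded_inverse 𝕜 H
  set s : ℝ := ‖S y φ k‖ with hs
  set s2 : ℝ := ‖S y φ (k + d)‖ with hs2
  set X : ℝ := ∑ l : Fin (d + e), ‖y (k + d + e + l)‖ with hX
  set Φ : ℝ := ∑ l : Fin (d + e), ‖φ (k + d + e + l)‖ with hΦ
  set Eb : ℝ := ∑ j : Fin e, ‖y (k + d + j)‖ with hEb
  have hs0 : 0 ≤ s := norm_nonneg _
  have hs20 : 0 ≤ s2 := norm_nonneg _
  have hX0 : 0 ≤ X := Finset.sum_nonneg fun _ _ => norm_nonneg _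
  have hΦ0 : 0 ≤ Φ := Finset.sum_nonneg fun _ _ => norm_nonneg _
  have hEb0 : 0 ≤ Eb := Finset.sum_nonneg fun _ _ => norm_nonneg _
  obtain ⟨ε, hε0, hε⟩ := choose_eps K (5 + s + s2) X δ hK0.le (by linarith) hX0 hδ
  obtain ⟨R, hR0, hR⟩ := choose_R K' Φ Eb C ε δ hK'0.le hΦ0 hEb0 hC hε0 hδ
  let εk : 𝕜 := ((ε : ℝ) : 𝕜)
  let Rk : 𝕜 := ((R : ℝ) : 𝕜)
  have hεk : εk ≠ 0 := by
    simp only [εk]; exact_mod_cast hε0.ne'
  have hRk : Rk ≠ 0 := by
    simp only [Rk]; exact_mod_cast hR0.ne'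
  have hεn : ‖εk‖ = ε := by simp [εk, abs_of_pos hε0]
  have hRn : ‖Rk‖ = R := by simp [Rk, abs_of_pos hR0]
  let P := PP U H εk Rk
  let Q := QQ U H εk Rk
  -- formulas
  have hGl : ∀ l, GG y k d e P (Sum.inr l) = M (Sum.inr l) + εk • y (k + d + e + l) := by
    intro l
    simp only [GG, Fintype.sum_sum_type, P, PP, pos, M, Sum.elim_inr, zero_smul,
      Finset.sum_const_zero, add_zero, ite_smul, Finset.sum_ite_eq, Finset.mem_univ, if_true]
  have hGi : ∀ i, GG y k d e P (Sum.inl (Sum.inl i)) = M (Sum.inl i) := by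
    intro i
    simp only [GG, Fintype.sum_sum_type, P, PP, pos, M, Sum.elim_inl, zero_smul,
      Finset.sum_const_zero, add_zero, ite_smul, one_smul, Finset.sum_ite_eq, Finset.mem_univ,
      if_true]
  have hFl : ∀ l v, FF φ k d e Q (Sum.inr l) v =
      Rk * ∑ j : Fin e, φ (k + d + j) v * H j l + εk⁻¹ * φ (k + d + e + l) v := by
    intro l v
    simp only [FF_apply, Fintype.sum_sum_type, Q, QQ, pos, zero_mul, Finset.sum_const_zero,
      zero_add, ite_mul, Finset.sum_ite_eq, Finset.mem_univ, if_true]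
    rw [Finset.mul_sum]
    congr 1
    exact Finset.sum_congr rfl fun j _ => by ring
  have hFi : ∀ i v, FF φ k d e Q (Sum.inl (Sum.inl i)) v =
      φ (k + i) v - ∑ l : Fin (d + e), εk⁻¹ * U i l * φ (k + d + e + l) v := by
    intro i v
    simp only [FF_apply, Fintype.sum_sum_type, Q, QQ, pos, zero_mul, Finset.sum_const_zero,
      add_zero, ite_mul, one_mul, Finset.sum_ite_eq, Finset.mem_univ, if_true, neg_mul,
      Finset.sum_neg_distrib]
    ring
  refine ⟨d, e, hd1, P, Q, PP_QQ U H εk Rk hεk hUH, ?_⟩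
  intro v a ha
  set A : Set (B d e) := {i | FF φ k d e Q i v ≠ 0} with hAdef
  let AI : Finset (Fin (d + e)) := Finset.univ.filter fun l => FF φ k d e Q (Sum.inr l) v ≠ 0
  -- passing from a combination of the `M`'s to the new vectors
  have transfer : ∀ (AM : Set (Fin d ⊕ Fin (d + e)))
      (_ : ∀ i, Sum.inl i ∈ AM → (Sum.inl (Sum.inl i) : B d e) ∈ A)
      (_ : ∀ l, Sum.inr l ∈ AM → (Sum.inr l : B d e) ∈ A)
      (u : Y), u ∈ Submodule.span 𝕜 (M '' AM) → ‖u‖ ≤ (5 + s + s2) * ‖v‖ →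
      ∃ w ∈ Submodule.span 𝕜 (GG y k d e P '' A), ‖u - w‖ ≤ δ / 2 * ‖v‖ := by
    intro AM h1 h2 u hu hun
    obtain ⟨c, hc0, hcs, hcn⟩ := hK AM u hu
    rw [Fintype.sum_sum_type] at hcs
    refine ⟨∑ i, c (Sum.inl i) • GG y k d e P (Sum.inl (Sum.inl i)) +
      ∑ l, c (Sum.inr l) • GG y k d e P (Sum.inr l), ?_, ?_⟩
    · refine Submodule.add_mem _ (Submodule.sum_mem _ fun i _ => ?_)
        (Submodule.sum_mem _ fun l _ => ?_)
      · by_cases hi : Sum.inl i ∈ AM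
        · exact Submodule.smul_mem _ _ (Submodule.subset_span ⟨_, h1 i hi, rfl⟩)
        · rw [hc0 _ hi, zero_smul]; exact Submodule.zero_mem _
      · by_cases hl : Sum.inr l ∈ AM
        · exact Submodule.smul_mem _ _ (Submodule.subset_span ⟨_, h2 l hl, rfl⟩)
        · rw [hc0 _ hl, zero_smul]; exact Submodule.zero_mem _
    · have e1 : ∑ l, c (Sum.inr l) • GG y k d e P (Sum.inr l) =
          ∑ l, c (Sum.inr l) • M (Sum.inr l) +
            εk • ∑ l : Fin (d + e), c (Sum.inr l) • y (k + d + e + l) := by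
        rw [Finset.smul_sum, ← Finset.sum_add_distrib]
        refine Finset.sum_congr rfl fun l _ => ?_
        rw [hGl, smul_add, smul_comm]
      have e2 : ∑ i, c (Sum.inl i) • GG y k d e P (Sum.inl (Sum.inl i)) =
          ∑ i, c (Sum.inl i) • M (Sum.inl i) :=
        Finset.sum_congr rfl fun i _ => by rw [hGi]
      rw [e1, e2, ← add_assoc, hcs]
      have e3 : u - (u + εk • ∑ l : Fin (d + e), c (Sum.inr l) • y (k + d + e + l)) =
          -(εk • ∑ l : Fin (d + e), c (Sum.inr l) • y (k + d + e + l)) := by abel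
      rw [e3, norm_neg, norm_smul, hεn]
      have e4 := norm_sum_smul_le (fun l => c (Sum.inr l)) (fun l : Fin (d + e) =>
        y (k + d + e + l)) (K * ‖u‖) (fun l => hcn _)
      have e5 : K * ‖u‖ * X ≤ K * ((5 + s + s2) * ‖v‖) * X := by gcongr
      calc ε * ‖∑ l : Fin (d + e), c (Sum.inr l) • y (k + d + e + l)‖ ≤ ε * (K * ‖u‖ * X) := by gcongr
        _ ≤ ε * (K * ((5 + s + s2) * ‖v‖) * X) := by gcongr
        _ = ε * (K * (5 + s + s2) * X) * ‖v‖ := by ring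
        _ ≤ δ / 2 * ‖v‖ := by gcongr
  rcases le_or_gt d AI.card with hcase | hcase
  · -- first case
    obtain ⟨a', ha', h1, h2⟩ : ∃ a' ∈ Submodule.span 𝕜 (y '' Set.Iio k),
        ‖v - a'‖ ≤ ‖v - a‖ ∧ ‖v - a'‖ ≤ ‖v‖ := by
      rcases le_total ‖v - a‖ ‖v‖ with h | h
      · exact ⟨a, ha, le_rfl, h⟩
      · exact ⟨0, Submodule.zero_mem _, by rwa [sub_zero], by rw [sub_zero]⟩
    obtain ⟨u, hu, hun⟩ := hA v a' ha'
    have hun' : ‖u‖ ≤ (5 + s + s2) * ‖v‖ := by
      have e1 : u = v - S y φ k v - (v - S y φ k v - u) := by abel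
      have e2 : ‖S y φ k v‖ ≤ s * ‖v‖ := (S y φ k).le_opNorm v
      calc ‖u‖ = ‖v - S y φ k v - (v - S y φ k v - u)‖ := by rw [← e1]
        _ ≤ ‖v - S y φ k v‖ + ‖v - S y φ k v - u‖ := norm_sub_le _ _
        _ ≤ (‖v‖ + ‖S y φ k v‖) + 4 * ‖v - a'‖ := add_le_add (norm_sub_le _ _) hun
        _ ≤ (‖v‖ + s * ‖v‖) + 4 * ‖v‖ := by gcongr
        _ ≤ (5 + s + s2) * ‖v‖ := by nlinarith [mul_nonneg hs20 (norm_nonneg v)]
    obtain ⟨w, hw, hwn⟩ := transfer {b | ∃ l ∈ AI, b = Sum.inr l}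
      (by rintro i ⟨l, _, h⟩; cases h)
      (by
        rintro l ⟨l', hl', h⟩
        cases h
        exact (Finset.mem_filter.mp hl').2) u
      (by
        have hle : Submodule.span 𝕜 (y '' Set.Ico k (k + d)) ≤
            Submodule.span 𝕜 (M '' {b | ∃ l ∈ AI, b = Sum.inr l}) := by
          rw [Submodule.span_le]
          rintro _ ⟨n, hn, rfl⟩
          obtain ⟨hn1, hn2⟩ := Set.mem_Ico.mp hn
          let i : Fin d := ⟨n - k, by omega⟩
          have hni : n = k + (i : ℕ) := by simp only [i]; omega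
          obtain ⟨c, hc0, hc⟩ := hU AI hcase (Pi.single i 1)
          have h3 : y n = ∑ l, c l • M (Sum.inr l) := by
            simp only [M, Sum.elim_inr, Finset.smul_sum, smul_smul]
            rw [Finset.sum_comm]
            simp only [← Finset.sum_smul, hc]
            rw [Finset.sum_eq_single i]
            · rw [Pi.single_eq_same, one_smul, ← hni]
            · intro j _ hj
              rw [Pi.single_eq_of_ne hj, zero_smul]
            · intro h; exact absurd (Finset.mem_univ _) h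
          rw [SetLike.mem_coe, h3]
          refine Submodule.sum_mem _ fun l _ => ?_
          by_cases hl : l ∈ AI
          · exact Submodule.smul_mem _ _ (Submodule.subset_span ⟨_, ⟨l, hl, rfl⟩, rfl⟩)
          · rw [hc0 l hl, zero_smul]; exact Submodule.zero_mem _
        exact hle hu) hun'
    refine ⟨w, hw, ?_⟩
    have e1 : v - S y φ k v - w = (v - S y φ k v - u) + (u - w) := by abel
    rw [e1]
    calc ‖(v - S y φ k v - u) + (u - w)‖ ≤ ‖v - S y φ k v - u‖ + ‖u - w‖ := norm_add_le _ _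
      _ ≤ 4 * ‖v - a'‖ + δ / 2 * ‖v‖ := add_le_add hun hwn
      _ ≤ 4 * ‖v - a‖ + δ / 2 * ‖v‖ := by gcongr
      _ ≤ (4 + C) * ‖v - a‖ + δ * ‖v‖ := by
          nlinarith [mul_nonneg hC (norm_nonneg (v - a)), mul_nonneg hδ.le (norm_nonneg v)]
  · -- second case
    have hT : e ≤ (Finset.univ \ AI).card := by
      rw [Finset.card_sdiff_of_subset (Finset.subset_univ _), Finset.card_univ, Fintype.card_fin]
      omega
    -- the part in the second subblock is small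
    set PE : Y := S y φ (k + d + e) v - S y φ (k + d) v with hPE
    have hPEsum : PE = ∑ j : Fin e, φ (k + d + j) v • y (k + d + j) := S_diff y φ (k + d) e v
    have hPEn : ‖PE‖ * (C + 1) ≤ δ / 2 * ‖v‖ := by
      have h1 : ∀ l ∈ Finset.univ \ AI, ‖∑ j : Fin e, φ (k + d + j) v * H j l‖ ≤
          (R * ε)⁻¹ * Φ * ‖v‖ := by
        intro l hl
        have h2 : FF φ k d e Q (Sum.inr l) v = 0 := by
          by_contra h
          exact (Finset.mem_sdiff.mp hl).2 (Finset.mem_filter.mpr ⟨Finset.mem_univ _, h⟩)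
        rw [hFl] at h2
        have h3 : ∑ j : Fin e, φ (k + d + j) v * H j l = -((Rk * εk)⁻¹ * φ (k + d + e + l) v) := by
          have h4 : Rk * ∑ j : Fin e, φ (k + d + j) v * H j l = -(εk⁻¹ * φ (k + d + e + l) v) :=
            eq_neg_of_add_eq_zero_left h2
          have h5 : ∑ j : Fin e, φ (k + d + j) v * H j l =
              Rk⁻¹ * (Rk * ∑ j : Fin e, φ (k + d + j) v * H j l) := by
            rw [← mul_assoc, inv_mul_cancel₀ hRk, one_mul]
          rw [h5, h4, mul_inv]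
          ring
        rw [h3, norm_neg, norm_mul, norm_inv, norm_mul, hεn, hRn]
        have h6 : ‖φ (k + d + e + l) v‖ ≤ Φ * ‖v‖ := by
          refine ((φ (k + d + e + l)).le_opNorm v).trans ?_
          refine mul_le_mul_of_nonneg_right ?_ (norm_nonneg _)
          exact Finset.single_le_sum (f := fun l : Fin (d + e) => ‖φ (k + d + e + l)‖)
            (fun _ _ => norm_nonneg _) (Finset.mem_univ l)
        calc (R * ε)⁻¹ * ‖φ (k + d + e + l) v‖ ≤ (R * ε)⁻¹ * (Φ * ‖v‖) := by gcongr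
          _ = (R * ε)⁻¹ * Φ * ‖v‖ := by ring
      have h2 := hK' (Finset.univ \ AI) (fun α hα => hH _ hT α hα)
        (fun j => φ (k + d + j) v) ((R * ε)⁻¹ * Φ * ‖v‖) (by positivity) h1
      have h3 := norm_sum_smul_le (fun j : Fin e => φ (k + d + j) v)
        (fun j : Fin e => y (k + d + j)) _ h2
      rw [← hPEsum] at h3
      calc ‖PE‖ * (C + 1) ≤ (K' * ((R * ε)⁻¹ * Φ * ‖v‖) * Eb) * (C + 1) := by gcongr
        _ = (K' * ((R * ε)⁻¹ * Φ) * Eb * (C + 1)) * ‖v‖ := by ring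
        _ ≤ δ / 2 * ‖v‖ := by gcongr
    -- the gap estimate
    have ha2 : a ∈ Submodule.span 𝕜 (y '' Set.Iio (k + d)) :=
      Submodule.span_mono (Set.image_mono (Set.Iio_subset_Iio (by omega))) ha
    have ha3 : a ∈ Submodule.span 𝕜 (y '' Set.Iio (k + d + e)) :=
      Submodule.span_mono (Set.image_mono (Set.Iio_subset_Iio (by omega))) ha
    have hgap := hE (v - a)
    have e1 : S y φ (k + d) (v - a) = S y φ (k + d) v - a := by
      rw [map_sub, S_of_mem y φ hbi _ a ha2]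
    have e2 : S y φ (k + d + e) (v - a) - S y φ (k + d) (v - a) = PE := by
      rw [e1, map_sub, S_of_mem y φ hbi _ a ha3, hPE]; abel
    rw [e2, e1] at hgap
    have e3 : ‖v - S y φ (k + d) v‖ ≤ (1 + C) * ‖v - a‖ + C * ‖PE‖ := by
      have : v - S y φ (k + d) v = (v - a) - (S y φ (k + d) v - a) := by abel
      rw [this]
      calc ‖(v - a) - (S y φ (k + d) v - a)‖ ≤ ‖v - a‖ + ‖S y φ (k + d) v - a‖ := norm_sub_le _ _
        _ ≤ ‖v - a‖ + C * (‖v - a‖ + ‖PE‖) := by gcongr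
        _ = (1 + C) * ‖v - a‖ + C * ‖PE‖ := by ring
    -- the first subblock
    set PD : Y := S y φ (k + d) v - S y φ k v with hPD
    have hPDsum : PD = ∑ i : Fin d, φ (k + i) v • y (k + i) := S_diff y φ k d v
    have hPDM : PD = ∑ i, FF φ k d e Q (Sum.inl (Sum.inl i)) v • M (Sum.inl i) +
        ∑ l, FF φ k d e Q (Sum.inr l) v • M (Sum.inr l) := by
      have f1 : ∑ l, FF φ k d e Q (Sum.inr l) v • M (Sum.inr l) =
          ∑ i, (∑ l : Fin (d + e), εk⁻¹ * U i l * φ (k + d + e + l) v) • y (k + i) := by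
        simp only [M, Sum.elim_inr, Finset.smul_sum, smul_smul]
        rw [Finset.sum_comm]
        simp only [← Finset.sum_smul]
        refine Finset.sum_congr rfl fun i _ => ?_
        congr 1
        have f2 : ∑ l, (Rk * ∑ j : Fin e, φ (k + d + j) v * H j l) * U i l = 0 := by
          have : ∀ l, (Rk * ∑ j : Fin e, φ (k + d + j) v * H j l) * U i l =
              ∑ j : Fin e, Rk * φ (k + d + j) v * (U i l * H j l) := by
            intro l
            rw [Finset.mul_sum, Finset.sum_mul]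
            exact Finset.sum_congr rfl fun j _ => by ring
          simp only [this]
          rw [Finset.sum_comm]
          refine Finset.sum_eq_zero fun j _ => ?_
          rw [← Finset.mul_sum, hUH, mul_zero]
        simp only [hFl, add_mul, Finset.sum_add_distrib]
        rw [f2, zero_add]
        exact Finset.sum_congr rfl fun l _ => by ring
      rw [f1, hPDsum, ← Finset.sum_add_distrib]
      refine Finset.sum_congr rfl fun i _ => ?_
      rw [hFi]
      simp only [M, Sum.elim_inl]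
      rw [← add_smul, sub_add_cancel]
    have hPDn : ‖PD‖ ≤ (5 + s + s2) * ‖v‖ := by
      calc ‖PD‖ ≤ ‖S y φ (k + d) v‖ + ‖S y φ k v‖ := norm_sub_le _ _
        _ ≤ s2 * ‖v‖ + s * ‖v‖ := add_le_add ((S y φ (k + d)).le_opNorm v) ((S y φ k).le_opNorm v)
        _ ≤ (5 + s + s2) * ‖v‖ := by nlinarith [norm_nonneg v]
    obtain ⟨w, hw, hwn⟩ := transfer
      {b | (∃ i, b = Sum.inl i ∧ (Sum.inl (Sum.inl i) : B d e) ∈ A) ∨
        (∃ l, b = Sum.inr l ∧ (Sum.inr l : B d e) ∈ A)}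
      (by
        rintro i (⟨i', h, h'⟩ | ⟨l, h, -⟩)
        · cases h; exact h'
        · cases h)
      (by
        rintro l (⟨i', h, -⟩ | ⟨l', h, h'⟩)
        · cases h
        · cases h; exact h') PD
      (by
        rw [hPDM]
        refine Submodule.add_mem _ (Submodule.sum_mem _ fun i _ => ?_)
          (Submodule.sum_mem _ fun l _ => ?_)
        · by_cases h : FF φ k d e Q (Sum.inl (Sum.inl i)) v = 0
          · rw [h, zero_smul]; exact Submodule.zero_mem _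
          · exact Submodule.smul_mem _ _ (Submodule.subset_span ⟨_, Or.inl ⟨i, rfl, h⟩, rfl⟩)
        · by_cases h : FF φ k d e Q (Sum.inr l) v = 0
          · rw [h, zero_smul]; exact Submodule.zero_mem _
          · exact Submodule.smul_mem _ _ (Submodule.subset_span ⟨_, Or.inr ⟨l, rfl, h⟩, rfl⟩)) hPDn
    refine ⟨w, hw, ?_⟩
    have e4 : v - S y φ k v - w = (v - S y φ (k + d) v) + (PD - w) := by
      rw [hPD]; abel
    rw [e4]
    calc ‖(v - S y φ (k + d) v) + (PD - w)‖ ≤ ‖v - S y φ (k + d) v‖ + ‖PD - w‖ := norm_add_le _ _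
      _ ≤ ((1 + C) * ‖v - a‖ + C * ‖PE‖) + δ / 2 * ‖v‖ := add_le_add e3 hwn
      _ ≤ (4 + C) * ‖v - a‖ + δ * ‖v‖ := by
          nlinarith [norm_nonneg PE, norm_nonneg (v - a)]

end Pool.Agent.Helper65.Strong
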