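import Mathlib
import Pool.Agent.Helper65_strong.BlockMain
import Pool.Agent.Helper65_strong.Bio

/-!
# Assembly of the blocks
-/

set_option autoImplicit false

open Filter Topology

namespace Pool.Agent.Helper65.Strong

universe u v

theorem pos_lt (k d e : ℕ) (b : B d e) : pos k d e b < k + (d + e + (d + e)) := by
  rcases b with (i | j) | l
  · simp only [pos]; omega
  · simp only [pos]; omega
  · simp only [pos]; omega

theorem le_pos (k d e : ℕ) (b : B d e) : k ≤ pos k d e b := by
  rcases b with (i | j) | l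
  · simp only [pos]; omega
  · simp only [pos]; omega
  · simp only [pos]; omega

theorem pos_injective (k d e : ℕ) : Function.Injective (pos k d e) := by
  rintro ((i | j) | l) ((i' | j') | l') h <;> simp only [pos] at h
  · have : i = i' := Fin.ext (by omega)
    rw [this]
  · omega
  · omega
  · omega
  · have : j = j' := Fin.ext (by omega)
    rw [this]
  · omega
  · omega
  · omega
  · have : l = l' := Fin.ext (by omega)
    rw [this]

theorem exists_pos (k d e n : ℕ) (h1 : k ≤ n) (h2 : n < k + (d + e + (d + e))) :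
    ∃ b : B d e, pos k d e b = n := by
  rcases lt_or_ge n (k + d) with h | h
  · exact ⟨Sum.inl (Sum.inl ⟨n - k, by omega⟩), by simp only [pos]; omega⟩
  · rcases lt_or_ge n (k + d + e) with h' | h'
    · exact ⟨Sum.inl (Sum.inr ⟨n - (k + d), by omega⟩), by simp only [pos]; omega⟩
    · exact ⟨Sum.inr ⟨n - (k + d + e), by omega⟩, by simp only [pos]; omega⟩

section

variable {𝕜 : Type u} [RCLike 𝕜]

theorem QP {d e : ℕ} (P Q : B d e → B d e → 𝕜)
    (h : ∀ i j, ∑ l, P i l * Q j l = if i = j then 1 else 0) (l l' : B d e) :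
    ∑ b, Q b l * P b l' = if l = l' then 1 else 0 := by
  have h1 : (Matrix.of P) * (Matrix.of Q).transpose = 1 := by
    ext i j
    rw [Matrix.mul_apply, Matrix.one_apply]
    exact h i j
  have h2 := mul_eq_one_comm.mp h1
  have h3 := congrFun (congrFun h2 l) l'
  rw [Matrix.mul_apply, Matrix.one_apply] at h3
  exact h3

theorem PQ' {d e : ℕ} (P Q : B d e → B d e → 𝕜)
    (h : ∀ i j, ∑ l, P i l * Q j l = if i = j then 1 else 0) (l l' : B d e) :
    ∑ b, P b l * Q b l' = if l = l' then 1 else 0 := by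
  have := QP P Q h l' l
  rw [show (∑ b, P b l * Q b l') = ∑ b, Q b l' * P b l from
    Finset.sum_congr rfl fun b _ => mul_comm _ _, this]
  simp only [eq_comm]

variable {Y : Type v} [AddCommGroup Y] [Module 𝕜 Y]

/-- recovering the old vectors from the new ones -/
theorem recover {d e : ℕ} (P Q : B d e → B d e → 𝕜)
    (h : ∀ l l', ∑ b, Q b l * P b l' = if l = l' then 1 else 0) (z : B d e → Y) (l : B d e) :
    ∑ b, Q b l • ∑ l', P b l' • z l' = z l := by
  simp only [Finset.smul_sum, smul_smul]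
  rw [Finset.sum_comm]
  simp only [← Finset.sum_smul, h]
  simp

end

section

variable {𝕜 : Type u} [RCLike 𝕜] {Y : Type v} [NormedAddCommGroup Y] [NormedSpace 𝕜 Y]
  (y : ℕ → Y) (φ : ℕ → StrongDual 𝕜 Y)

theorem smul_eq_zero_of (c : 𝕜) (z : Y) (h : c = 0) :
    c • z = 0 := by rw [h, zero_smul]

theorem S_block (k d e : ℕ) (v : Y) :
    S y φ (k + (d + e + (d + e))) v - S y φ k v = ∑ l, φ (pos k d e l) v • y (pos k d e l) := by
  rw [Fintype.sum_sum_type, Fintype.sum_sum_type]
  simp only [pos]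
  rw [← S_diff y φ k d v, ← S_diff y φ (k + d) e v, ← S_diff y φ (k + d + e) (d + e) v]
  have : k + (d + e + (d + e)) = k + d + e + (d + e) := by ring
  rw [this]
  abel

theorem S_block' (k d e : ℕ) (P Q : B d e → B d e → 𝕜)
    (h : ∀ i j, ∑ l, P i l * Q j l = if i = j then 1 else 0) (v : Y) :
    S y φ (k + (d + e + (d + e))) v - S y φ k v =
      ∑ b, FF φ k d e Q b v • GG y k d e P b := by
  rw [S_block]
  have h1 : ∀ b, FF φ k d e Q b v • GG y k d e P b =
      ∑ l, φ (pos k d e l) v • (Q b l • GG y k d e P b) := by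
    intro b
    rw [FF_apply, Finset.sum_smul]
    exact Finset.sum_congr rfl fun l _ => by rw [smul_smul, mul_comm]
  simp only [h1]
  rw [Finset.sum_comm]
  refine Finset.sum_congr rfl fun l _ => ?_
  rw [← Finset.smul_sum]
  congr 1
  exact (recover P Q (QP P Q h) (fun l => y (pos k d e l)) l).symm

end

/-- The main theorem: a biorthogonal sequence `(x n, f n)` of a normed space whose parts span dense
subspaces of the space and of its dual has a block perturbation such that every functional `v` is in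
the closed linear span of the `f' n` with `v (x' n) ≠ 0`. -/
theorem exists_strong (𝕜 : Type u) [RCLike 𝕜] (E : Type v) [NormedAddCommGroup E]
    [NormedSpace 𝕜 E] (x : ℕ → E) (f : ℕ → StrongDual 𝕜 E)
    (hbi : ∀ i j, f i (x j) = if i = j then 1 else 0)
    (hx : Dense ((Submodule.span 𝕜 (Set.range x) : Submodule 𝕜 E) : Set E))
    (hf : Dense ((Submodule.span 𝕜 (Set.range f) : Submodule 𝕜 (StrongDual 𝕜 E)) :
        Set (StrongDual 𝕜 E))) :
    ∃ (x' : ℕ → E) (f' : ℕ → StrongDual 𝕜 E),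
      (∀ i j, f' i (x' j) = if i = j then 1 else 0) ∧
      Submodule.span 𝕜 (Set.range x) ≤ Submodule.span 𝕜 (Set.range x') ∧
      Submodule.span 𝕜 (Set.range f) ≤ Submodule.span 𝕜 (Set.range f') ∧
      ∀ v : StrongDual 𝕜 E,
        v ∈ closure ((Submodule.span 𝕜 (f' '' {n | v (x' n) ≠ 0}) :
          Submodule 𝕜 (StrongDual 𝕜 E)) : Set (StrongDual 𝕜 E)) := by
  classical
  let ev : E →L[𝕜] StrongDual 𝕜 (StrongDual 𝕜 E) := NormedSpace.inclusionInDoubleDual 𝕜 E
  let φ : ℕ → StrongDual 𝕜 (StrongDual 𝕜 E) := fun n => ev (x n)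
  have hev : ∀ (z : E) (g : StrongDual 𝕜 E), ev z g = g z := fun z g => rfl
  have hbi' : ∀ i j, φ i (f j) = if i = j then 1 else 0 := by
    intro i j
    rw [hev, hbi]
    simp only [eq_comm]
  have hN : ∀ w : StrongDual 𝕜 E, w ≠ 0 →
      ∃ θ ∈ Submodule.span 𝕜 (Set.range φ), ‖θ‖ ≤ 1 ∧ ‖w‖ < 2 * ‖θ w‖ := by
    intro w hw
    have hwpos : 0 < ‖w‖ := norm_pos_iff.mpr hw
    obtain ⟨z, hz1, hz2⟩ := w.exists_lt_apply_of_lt_opNorm (show ‖w‖ / 2 < ‖w‖ by linarith)
    have hopen : IsOpen {z : E | ‖z‖ < 1 ∧ ‖w‖ / 2 < ‖w z‖} :=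
      (isOpen_lt continuous_norm continuous_const).inter
        (isOpen_lt continuous_const (continuous_norm.comp w.continuous))
    obtain ⟨z', ⟨hz'1, hz'2⟩, hz'3⟩ := hx.inter_open_nonempty _ hopen ⟨z, hz1, hz2⟩
    refine ⟨ev z', ?_, ?_, ?_⟩
    · have h1 : Set.range φ = ev '' Set.range x := by
        rw [← Set.range_comp]; rfl
      rw [h1, ← ContinuousLinearMap.coe_coe ev, Submodule.span_image]
      exact Submodule.mem_map_of_mem hz'3
    · exact (NormedSpace.double_dual_bound 𝕜 E z').trans hz'1.le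
    · rw [hev]; linarith
  have H := fun (k m : ℕ) => block f φ hbi' hf 2 (by norm_num) hN k (1 / ((m : ℝ) + 1))
    (by positivity)
  choose d e hd P Q hPQ hmain using H
  let κ : ℕ → ℕ := fun m => Nat.rec 0
    (fun m k => k + (d k m + e k m + (d k m + e k m))) m
  have hκ0 : κ 0 = 0 := rfl
  have hκs : ∀ m, κ (m + 1) =
      κ m + (d (κ m) m + e (κ m) m + (d (κ m) m + e (κ m) m)) := fun m => rfl
  have hκlt : ∀ m, κ m < κ (m + 1) := by
    intro m
    rw [hκs]
    have := hd (κ m) m
    omega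
  have hκmono : StrictMono κ := strictMono_nat_of_lt_succ hκlt
  let ι : Type := Σ m : ℕ, B (d (κ m) m) (e (κ m) m)
  let p : ι → ℕ := fun i => pos (κ i.1) (d (κ i.1) i.1) (e (κ i.1) i.1) i.2
  have hp1 : ∀ i : ι, κ i.1 ≤ p i := fun i => le_pos _ _ _ _
  have hp2 : ∀ i : ι, p i < κ (i.1 + 1) := fun i => by rw [hκs]; exact pos_lt _ _ _ _
  have hpm : ∀ i j : ι, p i = p j → i.1 = j.1 := by
    intro i j h
    by_contra hne
    rcases lt_or_gt_of_ne hne with h' | h'
    · have h1 : κ (i.1 + 1) ≤ κ j.1 := hκmono.monotone h'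
      have := hp1 j
      have := hp2 i
      omega
    · have h1 : κ (j.1 + 1) ≤ κ i.1 := hκmono.monotone h'
      have := hp1 i
      have := hp2 j
      omega
  have hsurj : ∀ n, ∃ i : ι, p i = n := by
    intro n
    have hex : ∃ m, n < κ (m + 1) := ⟨n, lt_of_lt_of_le (Nat.lt_succ_self n) (hκmono.id_le (n + 1))⟩
    let m := Nat.find hex
    have hm : n < κ (m + 1) := Nat.find_spec hex
    have hm2 : κ m ≤ n := by
      by_contra hcon
      rcases Nat.eq_zero_or_pos m with h0 | h0
      · rw [h0, hκ0] at hcon; omega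
      · obtain ⟨m', hm'⟩ : ∃ m', m = m' + 1 := ⟨m - 1, by omega⟩
        have : ¬ (n < κ (m' + 1)) := Nat.find_min hex (by change m' < m; omega)
        rw [← hm'] at this
        omega
    rw [hκs] at hm
    obtain ⟨b, hb⟩ := exists_pos _ _ _ n hm2 hm
    exact ⟨⟨m, b⟩, hb⟩
  let X : ι → E := fun i => ∑ l, Q (κ i.1) i.1 i.2 l • x (pos (κ i.1) _ _ l)
  let G : ι → StrongDual 𝕜 E := fun i => GG f (κ i.1) _ _ (P (κ i.1) i.1) i.2
  have hXF : ∀ (i : ι) (v : StrongDual 𝕜 E), v (X i) = FF φ (κ i.1) _ _ (Q (κ i.1) i.1) i.2 v := by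
    intro i v
    simp only [X, map_sum, map_smul, FF_apply, smul_eq_mul, φ, hev]
  -- biorthogonality
  have hXG : ∀ i j : ι, G i (X j) = if i = j then 1 else 0 := by
    intro i j
    have h1 : G i (X j) = ∑ l, ∑ l', P (κ i.1) i.1 i.2 l * Q (κ j.1) j.1 j.2 l' *
        f (pos (κ i.1) _ _ l) (x (pos (κ j.1) _ _ l')) := by
      simp only [G, GG, X, map_sum, map_smul, sum_apply, _root_.smul_apply, smul_eq_mul,
        Finset.mul_sum]
      rw [Finset.sum_comm]
      refine Finset.sum_congr rfl fun l _ => Finset.sum_congr rfl fun l' _ => ?_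
      ring
    rw [h1]
    by_cases hij : i.1 = j.1
    · obtain ⟨m, b⟩ := i
      obtain ⟨m', b'⟩ := j
      simp only at hij
      subst hij
      have h2 : ∀ l l' : B (d (κ m) m) (e (κ m) m),
          f (pos (κ m) _ _ l) (x (pos (κ m) _ _ l')) = if l = l' then (1 : 𝕜) else 0 := by
        intro l l'
        rw [hbi]
        by_cases h : l = l'
        · rw [if_pos h, h, if_pos rfl]
        · rw [if_neg h, if_neg fun h' => h (pos_injective _ _ _ h')]
      simp only [h2, mul_ite, mul_one, mul_zero, Finset.sum_ite_eq, Finset.mem_univ, if_true]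
      rw [hPQ]
      by_cases h : b = b'
      · subst h; simp
      · rw [if_neg h, if_neg]
        intro h'
        exact h (eq_of_heq (Sigma.mk.inj_iff.mp h').2)
    · rw [if_neg fun h => hij (by rw [h])]
      refine Finset.sum_eq_zero fun l _ => Finset.sum_eq_zero fun l' _ => ?_
      rw [hbi, if_neg, mul_zero]
      intro h
      exact hij (hpm ⟨i.1, l⟩ ⟨j.1, l'⟩ h)
  -- old vectors and functionals from new ones
  have hfG : ∀ n, f n ∈ Submodule.span 𝕜 (Set.range G) := by
    intro n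
    obtain ⟨⟨m, b⟩, rfl⟩ := hsurj n
    have h1 := recover (P (κ m) m) (Q (κ m) m) (QP _ _ (hPQ (κ m) m))
      (fun l => f (pos (κ m) _ _ l)) b
    change f (pos (κ m) _ _ b) ∈ _
    rw [← h1]
    refine Submodule.sum_mem _ fun b' _ => Submodule.smul_mem _ _ (Submodule.subset_span ?_)
    exact ⟨⟨m, b'⟩, rfl⟩
  have hxX : ∀ n, x n ∈ Submodule.span 𝕜 (Set.range X) := by
    intro n
    obtain ⟨⟨m, b⟩, rfl⟩ := hsurj n
    have h1 := recover (Q (κ m) m) (P (κ m) m) (PQ' _ _ (hPQ (κ m) m))
      (fun l => x (pos (κ m) _ _ l)) b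
    change x (pos (κ m) _ _ b) ∈ _
    rw [← h1]
    refine Submodule.sum_mem _ fun b' _ => Submodule.smul_mem _ _ (Submodule.subset_span ?_)
    exact ⟨⟨m, b'⟩, rfl⟩
  -- the closure property
  have hclos : ∀ v : StrongDual 𝕜 E,
        v ∈ closure ((Submodule.span 𝕜 (G '' {i | v (X i) ≠ 0}) :
          Submodule 𝕜 (StrongDual 𝕜 E)) : Set (StrongDual 𝕜 E)) := by
    intro v
    have hS : ∀ m, S f φ (κ m) v ∈ Submodule.span 𝕜 (G '' {i | v (X i) ≠ 0}) := by
      intro m
      induction m with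
      | zero =>
        rw [hκ0, S_apply]
        simp
      | succ m ih =>
        have h1 := S_block' f φ (κ m) _ _ (P (κ m) m) (Q (κ m) m) (hPQ (κ m) m) v
        rw [← hκs] at h1
        rw [sub_eq_iff_eq_add.mp h1]
        refine Submodule.add_mem _ (Submodule.sum_mem _ fun b _ => ?_) ih
        by_cases h : FF φ (κ m) _ _ (Q (κ m) m) b v = 0
        · have h2 : FF φ (κ m) _ _ (Q (κ m) m) b v • GG f (κ m) _ _ (P (κ m) m) b = 0 := by
            exact smul_eq_zero_of (Y := StrongDual 𝕜 E) _ _ h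
          rw [h2]; exact Submodule.zero_mem _
        · refine Submodule.smul_mem _ _ (Submodule.subset_span ⟨⟨m, b⟩, ?_, rfl⟩)
          change v (X ⟨m, b⟩) ≠ 0
          rw [hXF]
          exact h
    rw [Metric.mem_closure_iff]
    intro η hη
    obtain ⟨a, ha, hva⟩ := Metric.mem_closure_iff.mp (hf v) (η / 12 / 2) (by positivity)
    obtain ⟨n, hn⟩ : ∃ n, a ∈ Submodule.span 𝕜 (f '' Set.Iio n) := by
      have := exists_mem_Ico f 0 a (by simpa using ha)
      obtain ⟨n, hn⟩ := this
      refine ⟨n, Submodule.span_mono (Set.image_mono ?_) hn⟩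
      intro i hi
      exact (Set.mem_Ico.mp hi).2
    obtain ⟨N, hN'⟩ := exists_nat_gt (2 * ‖v‖ / η)
    let m := max n N
    have hm1 : n ≤ κ m := le_trans (le_max_left n N) (hκmono.id_le m)
    obtain ⟨w, hw, hwn⟩ := hmain (κ m) m v a
      (Submodule.span_mono (Set.image_mono (Set.Iio_subset_Iio hm1)) hn)
    refine ⟨S f φ (κ m) v + w, ?_, ?_⟩
    · refine Submodule.add_mem _ (hS m) ?_
      refine Submodule.span_mono ?_ hw
      rintro _ ⟨b, hb, rfl⟩
      refine ⟨⟨m, b⟩, ?_, rfl⟩
      change v (X ⟨m, b⟩) ≠ 0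
      rw [hXF]
      exact hb
    · rw [dist_eq_norm]
      have h1 : v - (S f φ (κ m) v + w) = v - S f φ (κ m) v - w := by abel
      rw [h1]
      rw [dist_eq_norm] at hva
      have h2 : 1 / ((m : ℝ) + 1) * ‖v‖ < η / 2 := by
        have h3 : (N : ℝ) ≤ m := by exact_mod_cast le_max_right n N
        have h4 : 2 * ‖v‖ / η < (m : ℝ) + 1 := by linarith
        rw [div_lt_iff₀ hη] at h4
        rw [one_div, inv_mul_lt_iff₀ (by positivity)]
        linarith
      calc ‖v - S f φ (κ m) v - w‖ ≤ (4 + 2) * ‖v - a‖ + 1 / ((m : ℝ) + 1) * ‖v‖ := hwn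
        _ < η := by linarith
  -- transport to `ℕ`
  have hinf : Infinite ι := by
    refine Infinite.of_surjective p fun n => ?_
    exact hsurj n
  obtain ⟨u⟩ : Nonempty (ℕ ≃ ι) := nonempty_equiv_of_countable
  have hrX : Set.range (fun n => X (u n)) = Set.range X := by
    have := u.surjective.range_comp X
    exact this
  have hrG : Set.range (fun n => G (u n)) = Set.range G := by
    have := u.surjective.range_comp G
    exact this
  refine ⟨fun n => X (u n), fun n => G (u n), ?_, ?_, ?_, ?_⟩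
  · intro i j
    rw [hXG]
    simp only [u.injective.eq_iff]
  · rw [hrX, Submodule.span_le]
    rintro _ ⟨n, rfl⟩
    exact hxX n
  · rw [hrG, Submodule.span_le]
    rintro _ ⟨n, rfl⟩
    exact hfG n
  · intro v
    have h1 : (fun n => G (u n)) '' {n | v (X (u n)) ≠ 0} = G '' {i | v (X i) ≠ 0} := by
      ext z
      constructor
      · rintro ⟨n, hn, rfl⟩; exact ⟨u n, hn, rfl⟩
      · rintro ⟨i, hi, rfl⟩
        refine ⟨u.symm i, ?_, by simp⟩
        simpa using hi
    rw [h1]
    exact hclos v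

end Pool.Agent.Helper65.Strong
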